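import Pool.Agent.Helper93.LD.Dyad

/-!
# Iterated dyadic averages over a cube, and the discrepancy integrand
-/

set_option autoImplicit false

namespace Pool.Agent.Helper93.LD

/-- iterated average over the first `2^L` natural numbers in each of the `d` coordinates -/
noncomputable def avd (L : ℕ) : (d : ℕ) → ((Fin d → ℕ) → ℝ) → ℝ
  | 0, f => f (fun i => i.elim0)
  | d + 1, f => av L (fun x => avd L d (fun v => f (Fin.cons x v))) 0

/-- the absolute value of the discrepancy function -/
noncomputable def absdisc {d : ℕ} (P : Finset (Fin d → ℝ)) (N : ℕ) (x : Fin d → ℝ) : ℝ :=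
  |(((P : Set (Fin d → ℝ)) ∩ Set.pi Set.univ (fun i => Set.Iio (x i))).ncard : ℝ)
    - (N : ℝ) * ∏ i, x i|

end Pool.Agent.Helper93.LD
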