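import Pool.Agent.Helper93.LD.Dyad

/-!
# The cell inequality
-/

set_option autoImplicit false

namespace Pool.Agent.Helper93.LD

open Finset Complex

/-- two dimensional Haar coefficient of `φ` on the cell `(sx, tx) × (sy, ty)` -/
noncomputable def qh {E : Type*} [AddCommGroup E] [Module ℝ E] (sx tx sy ty : ℕ)
    (φ : ℕ → ℕ → E) : E :=
  hr sy (fun y => hr sx (fun x => φ x y) tx) ty

theorem qh_add (sx tx sy ty : ℕ) (φ ψ : ℕ → ℕ → ℂ) :
    qh sx tx sy ty (fun x y => φ x y + ψ x y) = qh sx tx sy ty φ + qh sx tx sy ty ψ := by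
  unfold qh
  rw [← hr_add]
  congr 1
  ext y
  rw [hr_add]

theorem qh_congr (sx tx sy ty : ℕ) {φ ψ : ℕ → ℕ → ℂ}
    (h : ∀ x, tx * 2 ^ (sx + 1) ≤ x → x < (tx + 1) * 2 ^ (sx + 1) →
      ∀ y, ty * 2 ^ (sy + 1) ≤ y → y < (ty + 1) * 2 ^ (sy + 1) → φ x y = ψ x y) :
    qh sx tx sy ty φ = qh sx tx sy ty ψ := by
  unfold qh
  refine hr_congr sy ty fun y hy1 hy2 => ?_
  exact hr_congr sx tx fun x hx1 hx2 => h x hx1 hx2 y hy1 hy2

theorem qh_mul (sx tx sy ty : ℕ) (u v : ℕ → ℂ) :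
    qh sx tx sy ty (fun x y => u x * v y) = hr sx u tx * hr sy v ty := by
  unfold qh
  rw [← hr_mul_left_c]
  congr 1
  ext y
  rw [mul_comm (hr sx u tx) (v y), ← hr_mul_left_c]
  congr 1
  ext x
  rw [mul_comm]

/-- average over the cell -/
noncomputable def cav (sx tx sy ty : ℕ) (φ : ℕ → ℕ → ℝ) : ℝ :=
  av (sy + 1) (fun y => av (sx + 1) (fun x => φ x y) tx) ty

theorem norm_qh_le (sx tx sy ty : ℕ) (φ : ℕ → ℕ → ℂ) :
    ‖qh sx tx sy ty φ‖ ≤ cav sx tx sy ty (fun x y => ‖φ x y‖) := by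
  unfold qh cav
  refine le_trans (norm_hr_le _ _ _) ?_
  exact av_mono' _ _ fun y => norm_hr_le _ _ _

theorem cav_mono (sx tx sy ty : ℕ) {φ ψ : ℕ → ℕ → ℝ}
    (h : ∀ x, tx * 2 ^ (sx + 1) ≤ x → x < (tx + 1) * 2 ^ (sx + 1) →
      ∀ y, ty * 2 ^ (sy + 1) ≤ y → y < (ty + 1) * 2 ^ (sy + 1) → φ x y ≤ ψ x y) :
    cav sx tx sy ty φ ≤ cav sx tx sy ty ψ := by
  unfold cav
  refine av_mono _ _ fun y hy1 hy2 => ?_
  exact av_mono _ _ fun x hx1 hx2 => h x hx1 hx2 y hy1 hy2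

theorem cav_const (sx tx sy ty : ℕ) (c : ℝ) : cav sx tx sy ty (fun _ _ => c) = c := by
  unfold cav
  rw [av_const, av_const]

theorem cav_add (sx tx sy ty : ℕ) (φ ψ : ℕ → ℕ → ℝ) :
    cav sx tx sy ty (fun x y => φ x y + ψ x y) = cav sx tx sy ty φ + cav sx tx sy ty ψ := by
  unfold cav
  rw [← av_add]
  congr 1
  ext y
  rw [av_add]

theorem cav_mul (sx tx sy ty : ℕ) (c : ℝ) (φ : ℕ → ℕ → ℝ) :
    cav sx tx sy ty (fun x y => c * φ x y) = c * cav sx tx sy ty φ := by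
  unfold cav
  rw [← av_mul_left]
  congr 1
  ext y
  rw [av_mul_left]

theorem av_id (s t : ℕ) : av s (fun i => (i : ℂ)) t = t * 2 ^ s + (2 ^ s - 1) / 2 := by
  induction s generalizing t with
  | zero => simp [av]
  | succ s ih =>
    rw [av_succ, ih, ih, Complex.real_smul]
    push_cast
    rw [pow_succ]
    ring

theorem hr_id (s t : ℕ) (c : ℂ) : hr s (fun i => (i : ℂ) - c) t = 2 ^ (s + 1) / 4 := by
  rw [hr_sub (E := ℂ) s (fun i => (i : ℂ)) (fun _ => c), hr_const, sub_zero, hr, av_id, av_id,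
    Complex.real_smul, pow_succ]
  push_cast
  ring

theorem exp_sub_one_bound (θ : ℝ) : ‖exp (I * θ) - 1‖ ≤ |θ| := by
  have := Real.norm_exp_I_mul_ofReal_sub_one_le (x := θ)
  simpa using this

theorem exp_sub_bound (θ : ℝ) (h : |θ| ≤ 1) : ‖exp (I * θ) - 1 - I * θ‖ ≤ θ ^ 2 := by
  have h1 : ‖(I * θ : ℂ)‖ = |θ| := by simp
  have h2 := Complex.norm_exp_sub_one_sub_id_le (x := I * θ) (by rw [h1]; exact h)
  rw [h1, sq_abs] at h2
  exact h2

theorem norm_exp_I (θ : ℝ) : ‖exp (I * θ)‖ = 1 := by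
  rw [mul_comm]
  exact Complex.norm_exp_ofReal_mul_I θ

/-- the cell inequality -/
theorem cell_ineq (sx tx sy ty : ℕ) (H : ℕ → ℕ → ℂ) (u v : ℕ → ℂ) (ω : ℝ) (hω : 0 ≤ ω)
    (hW : ω * (2 ^ (sx + 1) * 2 ^ (sy + 1)) ≤ 1)
    (hu : ∀ x, ‖u x‖ = 1) (hv : ∀ y, ‖v y‖ = 1)
    (hH : ∀ x, tx * 2 ^ (sx + 1) ≤ x → x < (tx + 1) * 2 ^ (sx + 1) →
      ∀ y, ty * 2 ^ (sy + 1) ≤ y → y < (ty + 1) * 2 ^ (sy + 1) →
      H x y = u x * v y * exp (I * ((ω * ((x : ℝ) - (tx * 2 ^ (sx + 1) : ℕ)) *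
        ((y : ℝ) - (ty * 2 ^ (sy + 1) : ℕ)) : ℝ) : ℂ))) :
    ω * (2 ^ (sx + 1) * 2 ^ (sy + 1)) / 16 - 4 * (ω * (2 ^ (sx + 1) * 2 ^ (sy + 1))) ^ 2
      - ω * (2 ^ (sx + 1) * 2 ^ (sy + 1)) * cav sx tx sy ty (fun x y => ‖H x y - 1‖)
      - av (sy + 1) (fun y => ‖hr sx (fun x => H x y) tx‖ ^ 2) ty
      - av (sx + 1) (fun x => ‖hr sy (fun y => H x y) ty‖ ^ 2) tx
      ≤ (qh sx tx sy ty H).im := by
  set W : ℝ := ω * (2 ^ (sx + 1) * 2 ^ (sy + 1)) with hWdef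
  have hW0 : 0 ≤ W := by positivity
  set x0 : ℕ := tx * 2 ^ (sx + 1) with hx0
  set y0 : ℕ := ty * 2 ^ (sy + 1) with hy0
  set θ : ℕ → ℕ → ℝ := fun x y => ω * ((x : ℝ) - x0) * ((y : ℝ) - y0) with hθ
  -- bounds for the phase on the cell
  have hX : ∀ x, x0 ≤ x → x < (tx + 1) * 2 ^ (sx + 1) →
      0 ≤ (x : ℝ) - x0 ∧ (x : ℝ) - x0 ≤ 2 ^ (sx + 1) := by
    intro x h1 h2
    have h1' : (x0 : ℝ) ≤ x := by exact_mod_cast h1
    have h2' : (x : ℝ) ≤ (tx + 1) * 2 ^ (sx + 1) := by exact_mod_cast h2.le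
    have h3 : (x0 : ℝ) = tx * 2 ^ (sx + 1) := by rw [hx0]; push_cast; ring
    constructor
    · linarith
    · rw [h3]; linarith
  have hY : ∀ y, y0 ≤ y → y < (ty + 1) * 2 ^ (sy + 1) →
      0 ≤ (y : ℝ) - y0 ∧ (y : ℝ) - y0 ≤ 2 ^ (sy + 1) := by
    intro y h1 h2
    have h1' : (y0 : ℝ) ≤ y := by exact_mod_cast h1
    have h2' : (y : ℝ) ≤ (ty + 1) * 2 ^ (sy + 1) := by exact_mod_cast h2.le
    have h3 : (y0 : ℝ) = ty * 2 ^ (sy + 1) := by rw [hy0]; push_cast; ring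
    constructor
    · linarith
    · rw [h3]; linarith
  have hθb : ∀ x, x0 ≤ x → x < (tx + 1) * 2 ^ (sx + 1) →
      ∀ y, y0 ≤ y → y < (ty + 1) * 2 ^ (sy + 1) → |θ x y| ≤ W := by
    intro x hx1 hx2 y hy1 hy2
    obtain ⟨a1, a2⟩ := hX x hx1 hx2
    obtain ⟨b1, b2⟩ := hY y hy1 hy2
    have h1 : 0 ≤ θ x y := by
      rw [hθ]; exact mul_nonneg (mul_nonneg hω a1) b1
    rw [abs_of_nonneg h1, hθ, hWdef]
    simp only
    rw [mul_assoc]
    exact mul_le_mul_of_nonneg_left (mul_le_mul a2 b2 b1 (by positivity)) hω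
  -- (A) the decomposition
  have hdec : qh sx tx sy ty H = hr sx u tx * hr sy v ty
      + qh sx tx sy ty (fun x y => I * ω * (((x : ℂ) - x0) * ((y : ℂ) - y0)))
      + qh sx tx sy ty (fun x y => (exp (I * θ x y) - 1 - I * θ x y)
        + (u x * v y - 1) * (exp (I * θ x y) - 1)) := by
    rw [← qh_mul, ← qh_add, ← qh_add]
    refine qh_congr _ _ _ _ fun x hx1 hx2 y hy1 hy2 => ?_
    rw [hH x hx1 hx2 y hy1 hy2]
    simp only [hθ]
    push_cast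
    ring
  -- (B) main term
  have hmain : qh sx tx sy ty (fun x y => I * ω * (((x : ℂ) - x0) * ((y : ℂ) - y0)))
      = I * ((W / 16 : ℝ) : ℂ) := by
    have h1 : (fun (x y : ℕ) => I * (ω : ℂ) * (((x : ℂ) - x0) * ((y : ℂ) - y0)))
        = fun (x y : ℕ) => (I * ω * ((x : ℂ) - x0)) * ((y : ℂ) - y0) := by
      ext x y; ring
    rw [h1, qh_mul, hr_mul_left_c, hr_id, hr_id, hWdef]
    push_cast
    ring
  -- (C) error term
  have herr : ‖qh sx tx sy ty (fun x y => (exp (I * θ x y) - 1 - I * θ x y)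
        + (u x * v y - 1) * (exp (I * θ x y) - 1))‖
      ≤ 2 * W ^ 2 + W * cav sx tx sy ty (fun x y => ‖H x y - 1‖) := by
    refine le_trans (norm_qh_le _ _ _ _ _) ?_
    have h1 : cav sx tx sy ty (fun x y => 2 * W ^ 2 + W * ‖H x y - 1‖)
        = 2 * W ^ 2 + W * cav sx tx sy ty (fun x y => ‖H x y - 1‖) := by
      rw [cav_add sx tx sy ty (fun _ _ => 2 * W ^ 2) (fun x y => W * ‖H x y - 1‖), cav_const,
        cav_mul]
    rw [← h1]
    refine cav_mono _ _ _ _ fun x hx1 hx2 y hy1 hy2 => ?_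
    have hb := hθb x hx1 hx2 y hy1 hy2
    have e1 : ‖exp (I * θ x y) - 1 - I * θ x y‖ ≤ W ^ 2 := by
      refine le_trans (exp_sub_bound _ (le_trans hb hW)) ?_
      rw [← sq_abs]
      exact pow_le_pow_left₀ (abs_nonneg _) hb 2
    have e2 : ‖exp (I * θ x y) - 1‖ ≤ W := le_trans (exp_sub_one_bound _) hb
    have e3 : ‖u x * v y - 1‖ ≤ ‖H x y - 1‖ + W := by
      have e4 : u x * v y - 1 = (H x y - 1) - u x * v y * (exp (I * θ x y) - 1) := by
        rw [hH x hx1 hx2 y hy1 hy2]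
        simp only [hθ]
        ring
      rw [e4]
      refine le_trans (norm_sub_le _ _) ?_
      rw [norm_mul, norm_mul, hu, hv, one_mul, one_mul]
      linarith
    refine le_trans (norm_add_le _ _) ?_
    rw [norm_mul]
    have e5 : ‖u x * v y - 1‖ * ‖exp (I * θ x y) - 1‖ ≤ (‖H x y - 1‖ + W) * W :=
      mul_le_mul e3 e2 (norm_nonneg _) (by positivity)
    nlinarith
  -- (D) the rank one term
  have hc : ∀ y, y0 ≤ y → y < (ty + 1) * 2 ^ (sy + 1) →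
      ‖hr sx u tx‖ ^ 2 ≤ 2 * ‖hr sx (fun x => H x y) tx‖ ^ 2 + 2 * W ^ 2 := by
    intro y hy1 hy2
    have e1 : ‖hr sx u tx‖ ≤ ‖hr sx (fun x => H x y) tx‖ + W := by
      have e2 : v y * hr sx u tx = hr sx (fun x => H x y) tx
          - hr sx (fun x => v y * u x * (exp (I * θ x y) - 1)) tx := by
        rw [← hr_mul_left_c, ← hr_sub]
        refine hr_congr sx tx fun x hx1 hx2 => ?_
        rw [hH x hx1 hx2 y hy1 hy2]
        simp only [hθ]
        ring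
      have e3 : ‖hr sx u tx‖ = ‖v y * hr sx u tx‖ := by rw [norm_mul, hv, one_mul]
      rw [e3, e2]
      refine le_trans (norm_sub_le _ _) ?_
      have e4 : ‖hr sx (fun x => v y * u x * (exp (I * θ x y) - 1)) tx‖ ≤ W := by
        refine le_trans (norm_hr_le _ _ _) ?_
        refine av_le_const _ _ _ fun x hx1 hx2 => ?_
        rw [norm_mul, norm_mul, hu, hv, one_mul, one_mul]
        exact le_trans (exp_sub_one_bound _) (hθb x hx1 hx2 y hy1 hy2)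
      linarith
    have e5 : ‖hr sx u tx‖ ^ 2 ≤ (‖hr sx (fun x => H x y) tx‖ + W) ^ 2 :=
      pow_le_pow_left₀ (norm_nonneg _) e1 2
    nlinarith [sq_nonneg (‖hr sx (fun x => H x y) tx‖ - W)]
  have hb : ∀ x, x0 ≤ x → x < (tx + 1) * 2 ^ (sx + 1) →
      ‖hr sy v ty‖ ^ 2 ≤ 2 * ‖hr sy (fun y => H x y) ty‖ ^ 2 + 2 * W ^ 2 := by
    intro x hx1 hx2
    have e1 : ‖hr sy v ty‖ ≤ ‖hr sy (fun y => H x y) ty‖ + W := by
      have e2 : u x * hr sy v ty = hr sy (fun y => H x y) ty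
          - hr sy (fun y => u x * v y * (exp (I * θ x y) - 1)) ty := by
        rw [← hr_mul_left_c, ← hr_sub]
        refine hr_congr sy ty fun y hy1 hy2 => ?_
        rw [hH x hx1 hx2 y hy1 hy2]
        simp only [hθ]
        ring
      have e3 : ‖hr sy v ty‖ = ‖u x * hr sy v ty‖ := by rw [norm_mul, hu, one_mul]
      rw [e3, e2]
      refine le_trans (norm_sub_le _ _) ?_
      have e4 : ‖hr sy (fun y => u x * v y * (exp (I * θ x y) - 1)) ty‖ ≤ W := by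
        refine le_trans (norm_hr_le _ _ _) ?_
        refine av_le_const _ _ _ fun y hy1 hy2 => ?_
        rw [norm_mul, norm_mul, hu, hv, one_mul, one_mul]
        exact le_trans (exp_sub_one_bound _) (hθb x hx1 hx2 y hy1 hy2)
      linarith
    have e5 : ‖hr sy v ty‖ ^ 2 ≤ (‖hr sy (fun y => H x y) ty‖ + W) ^ 2 :=
      pow_le_pow_left₀ (norm_nonneg _) e1 2
    nlinarith [sq_nonneg (‖hr sy (fun y => H x y) ty‖ - W)]
  have hc' : ‖hr sx u tx‖ ^ 2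
      ≤ 2 * av (sy + 1) (fun y => ‖hr sx (fun x => H x y) tx‖ ^ 2) ty + 2 * W ^ 2 := by
    have := const_le_av (sy + 1) (φ := fun y => 2 * ‖hr sx (fun x => H x y) tx‖ ^ 2 + 2 * W ^ 2)
      ty _ hc
    rwa [av_add, av_mul_left, av_const] at this
  have hb' : ‖hr sy v ty‖ ^ 2
      ≤ 2 * av (sx + 1) (fun x => ‖hr sy (fun y => H x y) ty‖ ^ 2) tx + 2 * W ^ 2 := by
    have := const_le_av (sx + 1) (φ := fun x => 2 * ‖hr sy (fun y => H x y) ty‖ ^ 2 + 2 * W ^ 2)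
      tx _ hb
    rwa [av_add, av_mul_left, av_const] at this
  have hrank : ‖hr sx u tx * hr sy v ty‖
      ≤ av (sy + 1) (fun y => ‖hr sx (fun x => H x y) tx‖ ^ 2) ty
        + av (sx + 1) (fun x => ‖hr sy (fun y => H x y) ty‖ ^ 2) tx + 2 * W ^ 2 := by
    rw [norm_mul]
    nlinarith [sq_nonneg (‖hr sx u tx‖ - ‖hr sy v ty‖)]
  -- conclusion
  rw [hdec, Complex.add_im, Complex.add_im, hmain]
  have i1 : (I * ((W / 16 : ℝ) : ℂ)).im = W / 16 := by simp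
  rw [i1]
  have i2 := Complex.abs_im_le_norm (hr sx u tx * hr sy v ty)
  have i3 := Complex.abs_im_le_norm (qh sx tx sy ty (fun x y => (exp (I * θ x y) - 1 - I * θ x y)
        + (u x * v y - 1) * (exp (I * θ x y) - 1)))
  have i4 := (abs_le.1 (le_trans i2 hrank)).1
  have i5 := (abs_le.1 (le_trans i3 herr)).1
  linarith

end Pool.Agent.Helper93.LD
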