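import Pool.Agent.Helper93.LD.Dyad

/-!
# The adaptive Riesz product
-/

set_option autoImplicit false

namespace Pool.Agent.Helper93.LD

open Finset Complex

/-- the coefficient of the adaptive Riesz product -/
noncomputable def phi (e θ a b : ℝ) : ℝ :=
  if θ ≤ |a| then (if 0 ≤ a * b then e else -e) else 0

/-- adaptive Riesz product along the dyadic tree -/
noncomputable def RP (L : ℕ) (e θ : ℝ) (f : ℕ → ℝ) : ℕ → ℕ → ℂ
  | 0, _ => 1
  | a + 1, t => RP L e θ f a (t / 2) * (1 + (if t % 2 = 0 then -1 else 1) * (I *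
      ((phi e θ (hr (L - 1 - a) f (t / 2)) (RP L e θ f a (t / 2)).re : ℝ) : ℂ)))

theorem RP_even (L : ℕ) (e θ : ℝ) (f : ℕ → ℝ) (a t : ℕ) :
    RP L e θ f (a + 1) (2 * t) = RP L e θ f a t * (1 - I *
      ((phi e θ (hr (L - 1 - a) f t) (RP L e θ f a t).re : ℝ) : ℂ)) := by
  rw [RP]
  have h1 : 2 * t / 2 = t := by omega
  have h2 : 2 * t % 2 = 0 := by omega
  rw [h1, if_pos h2]
  ring

theorem RP_odd (L : ℕ) (e θ : ℝ) (f : ℕ → ℝ) (a t : ℕ) :
    RP L e θ f (a + 1) (2 * t + 1) = RP L e θ f a t * (1 + I *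
      ((phi e θ (hr (L - 1 - a) f t) (RP L e θ f a t).re : ℝ) : ℂ)) := by
  rw [RP]
  have h1 : (2 * t + 1) / 2 = t := by omega
  have h2 : ¬ (2 * t + 1) % 2 = 0 := by omega
  rw [h1, if_neg h2]
  ring

theorem phi_sq_le (e θ a b : ℝ) : (phi e θ a b) ^ 2 ≤ e ^ 2 := by
  unfold phi
  split_ifs
  · exact le_refl _
  · rw [neg_sq]
  · have : 0 ≤ e ^ 2 := by positivity
    simpa using this

theorem RP_normSq (L : ℕ) (e θ : ℝ) (f : ℕ → ℝ) (a t : ℕ) :
    1 ≤ (RP L e θ f a t).re ^ 2 + (RP L e θ f a t).im ^ 2 ∧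
    (RP L e θ f a t).re ^ 2 + (RP L e θ f a t).im ^ 2 ≤ (1 + e ^ 2) ^ a := by
  induction a generalizing t with
  | zero => simp [RP]
  | succ a ih =>
    obtain ⟨h1, h2⟩ := ih (t / 2)
    rw [RP]
    set R := RP L e θ f a (t / 2) with hR
    set p := phi e θ (hr (L - 1 - a) f (t / 2)) R.re with hp
    have hp2 : p ^ 2 ≤ e ^ 2 := phi_sq_le _ _ _ _
    have key : (R * (1 + (if t % 2 = 0 then -1 else 1) * (I * (p : ℂ)))).re ^ 2
        + (R * (1 + (if t % 2 = 0 then -1 else 1) * (I * (p : ℂ)))).im ^ 2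
        = (R.re ^ 2 + R.im ^ 2) * (1 + p ^ 2) := by
      split_ifs
      · simp [Complex.mul_re, Complex.mul_im]
        ring
      · simp [Complex.mul_re, Complex.mul_im]
        ring
    rw [key]
    have hp0 : 0 ≤ p ^ 2 := by positivity
    constructor
    · nlinarith
    · rw [pow_succ]
      have hb : (0 : ℝ) ≤ (1 + e ^ 2) ^ a := by positivity
      exact mul_le_mul h2 (by linarith) (by linarith) hb

theorem RP_normSq_le (L K : ℕ) (e θ : ℝ) (he : K * e ^ 2 ≤ 1) (f : ℕ → ℝ) (a t : ℕ) (ha : a ≤ K) :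
    (RP L e θ f a t).re ^ 2 + (RP L e θ f a t).im ^ 2 ≤ 4 := by
  refine le_trans (RP_normSq L e θ f a t).2 ?_
  have h1 : (1 + e ^ 2) ^ a ≤ (Real.exp (e ^ 2)) ^ a := by
    refine pow_le_pow_left₀ (by positivity) ?_ a
    have := Real.add_one_le_exp (e ^ 2)
    linarith
  refine le_trans h1 ?_
  rw [← Real.exp_nat_mul]
  have h2 : (a : ℝ) * e ^ 2 ≤ 1 := by
    have h3 : (a : ℝ) ≤ K := by exact_mod_cast ha
    have h4 : 0 ≤ e ^ 2 := by positivity
    nlinarith
  refine le_trans (Real.exp_le_exp.2 h2) ?_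
  have := Real.exp_one_lt_d9
  linarith

/-- second moment of the imaginary part -/
theorem RP_im_sq (L K : ℕ) (e θ : ℝ) (he : K * e ^ 2 ≤ 1) (f : ℕ → ℝ) (a : ℕ) (ha : a ≤ K) :
    av a (fun t => (RP L e θ f a t).im ^ 2) 0 ≤ 4 * a * e ^ 2 := by
  induction a with
  | zero => simp [av, RP]
  | succ a ih =>
    rw [av_succ']
    have h1 : av a (fun i => (1 / 2 : ℝ) • ((RP L e θ f (a + 1) (2 * i)).im ^ 2
        + (RP L e θ f (a + 1) (2 * i + 1)).im ^ 2)) 0
        ≤ av a (fun i => (RP L e θ f a i).im ^ 2 + 4 * e ^ 2) 0 := by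
      refine av_mono' _ _ fun t => ?_
      rw [RP_even, RP_odd, smul_eq_mul]
      set R := RP L e θ f a t with hR
      set p := phi e θ (hr (L - 1 - a) f t) R.re with hp
      have hp2 : p ^ 2 ≤ e ^ 2 := phi_sq_le _ _ _ _
      have hp0 : 0 ≤ p ^ 2 := by positivity
      have hn := RP_normSq_le L K e θ he f a t (by omega)
      rw [← hR] at hn
      have key : (1 / 2 : ℝ) * ((R * (1 - I * (p : ℂ))).im ^ 2 + (R * (1 + I * (p : ℂ))).im ^ 2)
          = R.im ^ 2 + p ^ 2 * R.re ^ 2 := by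
        simp [Complex.mul_im]
        ring
      rw [key]
      have h2 : R.re ^ 2 ≤ 4 := by nlinarith [sq_nonneg R.im]
      have h3 : 0 ≤ R.re ^ 2 := by positivity
      nlinarith
    rw [av_add, av_const] at h1
    have h2 := ih (by omega)
    push_cast
    linarith

/-- pairing of the function with the Riesz product, one step -/
theorem pair_step (L : ℕ) (e θ : ℝ) (f : ℕ → ℝ) (a : ℕ) (ha : a < L) :
    av (a + 1) (fun t => av (L - (a + 1)) f t * (RP L e θ f (a + 1) t).im) 0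
      = av a (fun t => av (L - a) f t * (RP L e θ f a t).im) 0
        + av a (fun t => hr (L - 1 - a) f t * phi e θ (hr (L - 1 - a) f t) (RP L e θ f a t).re
          * (RP L e θ f a t).re) 0 := by
  rw [av_succ', ← av_add]
  congr 1
  ext t
  have e1 : L - (a + 1) = L - 1 - a := by omega
  have e2 : L - a = L - 1 - a + 1 := by omega
  rw [RP_even, RP_odd, e1, e2, av_succ, hr]
  set R := RP L e θ f a t with hR
  set s := L - 1 - a with hs
  set A := av s f (2 * t) with hA
  set B := av s f (2 * t + 1) with hB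
  set p := phi e θ ((1 / 2 : ℝ) • (B - A)) R.re with hp
  simp only [smul_eq_mul]
  have k1 : (R * (1 - I * (p : ℂ))).im = R.im - p * R.re := by
    simp [Complex.mul_im]; ring
  have k2 : (R * (1 + I * (p : ℂ))).im = R.im + p * R.re := by
    simp [Complex.mul_im]; ring
  rw [k1, k2]
  ring

/-- lower bound of the gain at one node -/
theorem gain_ge (e θ h a b : ℝ) (he : 0 ≤ e) (hθ : 0 ≤ θ) (hab : 1 ≤ a ^ 2 + b ^ 2) :
    e * θ * (3 / 4 * (if θ ≤ |h| then (1 : ℝ) else 0) - b ^ 2) ≤ h * phi e θ h a * a := by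
  have h1 : 3 / 4 - b ^ 2 ≤ |a| := by
    have e1 : 1 ≤ |a| ^ 2 + |b| ^ 2 := by rwa [sq_abs, sq_abs]
    have e2 : 1 ≤ |a| + |b| := by
      by_contra hc
      rw [not_le] at hc
      have f1 := abs_nonneg a
      have f2 := abs_nonneg b
      nlinarith [mul_nonneg f1 f2]
    have e3 : |b| ≤ 1 / 4 + b ^ 2 := by
      rw [← sq_abs b]
      nlinarith [sq_nonneg (|b| - 1 / 2)]
    linarith
  unfold phi
  split_ifs with hc hd
  · have h2 : h * e * a = e * (|h| * |a|) := by
      rw [← abs_mul, abs_of_nonneg hd]; ring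
    rw [h2]
    have h3 : θ * (3 / 4 * 1 - b ^ 2) ≤ |h| * |a| := by
      have g1 : θ * (3 / 4 * 1 - b ^ 2) ≤ θ * |a| := by
        apply mul_le_mul_of_nonneg_left _ hθ
        linarith
      have g2 : θ * |a| ≤ |h| * |a| := mul_le_mul_of_nonneg_right hc (abs_nonneg a)
      linarith
    have := mul_le_mul_of_nonneg_left h3 he
    linarith
  · rw [not_le] at hd
    have h2 : h * -e * a = e * (|h| * |a|) := by
      rw [← abs_mul, abs_of_neg hd]; ring
    rw [h2]
    have h3 : θ * (3 / 4 * 1 - b ^ 2) ≤ |h| * |a| := by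
      have g1 : θ * (3 / 4 * 1 - b ^ 2) ≤ θ * |a| := by
        apply mul_le_mul_of_nonneg_left _ hθ
        linarith
      have g2 : θ * |a| ≤ |h| * |a| := mul_le_mul_of_nonneg_right hc (abs_nonneg a)
      linarith
    have := mul_le_mul_of_nonneg_left h3 he
    linarith
  · have h4 : 0 ≤ e * θ * b ^ 2 := by positivity
    have h5 : h * 0 * a = 0 := by ring
    rw [h5]
    linarith

/-- the Riesz product inequality -/
theorem riesz (L K : ℕ) (hK : K ≤ L) (e θ : ℝ) (he0 : 0 ≤ e) (hθ : 0 ≤ θ) (he : K * e ^ 2 ≤ 1)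
    (f : ℕ → ℝ) :
    e * θ * (3 / 4 * ∑ a ∈ range K, av a (fun t => if θ ≤ |hr (L - 1 - a) f t| then (1 : ℝ)
      else 0) 0 - 4 * K ^ 2 * e ^ 2) ≤ 2 * av L (fun x => |f x|) 0 := by
  -- telescoping
  have htel : ∀ m, m ≤ K → av m (fun t => av (L - m) f t * (RP L e θ f m t).im) 0
      = ∑ a ∈ range m, av a (fun t => hr (L - 1 - a) f t
          * phi e θ (hr (L - 1 - a) f t) (RP L e θ f a t).re * (RP L e θ f a t).re) 0 := by
    intro m
    induction m with
    | zero => intro _; simp [av, RP]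
    | succ m ih =>
      intro hm
      rw [pair_step L e θ f m (by omega), ih (by omega), Finset.sum_range_succ]
  -- lower bound
  have hlow : ∑ a ∈ range K, (e * θ * (3 / 4 * av a (fun t => if θ ≤ |hr (L - 1 - a) f t|
      then (1 : ℝ) else 0) 0 - 4 * K * e ^ 2))
      ≤ ∑ a ∈ range K, av a (fun t => hr (L - 1 - a) f t
          * phi e θ (hr (L - 1 - a) f t) (RP L e θ f a t).re * (RP L e θ f a t).re) 0 := by
    refine Finset.sum_le_sum fun a ha => ?_
    rw [Finset.mem_range] at ha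
    have h1 : av a (fun t => e * θ * (3 / 4 * (if θ ≤ |hr (L - 1 - a) f t| then (1 : ℝ) else 0)
        - (RP L e θ f a t).im ^ 2)) 0 ≤ av a (fun t => hr (L - 1 - a) f t
          * phi e θ (hr (L - 1 - a) f t) (RP L e θ f a t).re * (RP L e θ f a t).re) 0 :=
      av_mono' _ _ fun t => gain_ge e θ _ _ _ he0 hθ (RP_normSq L e θ f a t).1
    refine le_trans ?_ h1
    rw [av_mul_left, av_sub, av_mul_left]
    have h2 := RP_im_sq L K e θ he f a ha.le
    have h3 : (a : ℝ) ≤ K := by exact_mod_cast ha.le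
    have h4 : 4 * (a : ℝ) * e ^ 2 ≤ 4 * K * e ^ 2 := by
      have : 0 ≤ e ^ 2 := by positivity
      nlinarith
    exact mul_le_mul_of_nonneg_left (by linarith) (mul_nonneg he0 hθ)
  rw [← htel K le_rfl, ← Finset.mul_sum, Finset.sum_sub_distrib, ← Finset.mul_sum,
    Finset.sum_const, Finset.card_range, nsmul_eq_mul] at hlow
  -- upper bound
  have hup : av K (fun t => av (L - K) f t * (RP L e θ f K t).im) 0
      ≤ 2 * av L (fun x => |f x|) 0 := by
    have e1 : av L (fun x => |f x|) 0 = av K (fun t => av (L - K) (fun x => |f x|) t) 0 := by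
      rw [← av_add_scale]
      congr 1
      omega
    rw [e1, ← av_mul_left]
    refine av_mono' _ _ fun t => ?_
    have h1 : |av (L - K) f t| ≤ av (L - K) (fun x => |f x|) t := by
      have := norm_av_le (L - K) f t
      simpa [Real.norm_eq_abs] using this
    have h2 : |(RP L e θ f K t).im| ≤ 2 := by
      have h3 := RP_normSq_le L K e θ he f K t le_rfl
      have h4 : (RP L e θ f K t).im ^ 2 ≤ 2 ^ 2 := by nlinarith [sq_nonneg (RP L e θ f K t).re]
      exact abs_le_of_sq_le_sq h4 (by norm_num)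
    have h5 : 0 ≤ av (L - K) (fun x => |f x|) t := av_nonneg _ _ fun x => abs_nonneg _
    calc av (L - K) f t * (RP L e θ f K t).im
        ≤ |av (L - K) f t * (RP L e θ f K t).im| := le_abs_self _
      _ = |av (L - K) f t| * |(RP L e θ f K t).im| := abs_mul _ _
      _ ≤ av (L - K) (fun x => |f x|) t * 2 := mul_le_mul h1 h2 (abs_nonneg _) h5
      _ = 2 * av (L - K) (fun x => |f x|) t := by ring
  refine le_trans (le_of_eq ?_) (le_trans hlow hup)
  ring

end Pool.Agent.Helper93.LD
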