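import Pool.Agent.Helper93.LD.Meas
import Pool.Agent.Helper93.LD.Riesz

/-!
# The `L^1` lower bound in four variables
-/

set_option autoImplicit false

namespace Pool.Agent.Helper93.LD

open Finset

/-- a weighted counting function minus a multiple of the volume, four variables -/
noncomputable def DD4 {ι : Type*} (P : Finset ι) (w : ι → ℝ) (q0 qx qy qz : ι → ℕ)
    (K u0 u1 u2 u3 : ℝ) (v x y z : ℕ) : ℝ :=
  ∑ i ∈ P, w i * (if q0 i ≤ v ∧ qx i ≤ x ∧ qy i ≤ y ∧ qz i ≤ z then 1 else 0)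
    - K * (((v : ℝ) + u0) * (((x : ℝ) + u1) * ((y : ℝ) + u2) * ((z : ℝ) + u3)))

theorem hr_mul_leftR (s : ℕ) (c : ℝ) (φ : ℕ → ℝ) (t : ℕ) :
    hr s (fun i => c * φ i) t = c * hr s φ t := hr_smul s c φ t

theorem hr_idR (s t : ℕ) (c : ℝ) : hr s (fun i => (i : ℝ) + c) t = 2 ^ (s + 1) / 4 := by
  rw [hr_add (E := ℝ) s (fun i => (i : ℝ)) (fun _ => c), hr_const, add_zero, hr, av_idR, av_idR,
    smul_eq_mul, pow_succ]
  push_cast
  ring

theorem hr_ind_zero (s c t : ℕ) (h : c / 2 ^ (s + 1) ≠ t) :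
    hr s (fun v => if c ≤ v then (1 : ℝ) else 0) t = 0 := by
  refine (hr_congr s t fun v hv1 hv2 => ?_).trans
    (hr_const (E := ℝ) s (if c ≤ t * 2 ^ (s + 1) then (1 : ℝ) else 0) t)
  by_cases h1 : c ≤ t * 2 ^ (s + 1)
  · have h2 : c ≤ v := le_trans h1 hv1
    rw [if_pos h1, if_pos h2]
  · have h2 : ¬ c ≤ v := by
      intro h3
      apply h
      rw [← mem_block_iff]
      exact ⟨by omega, lt_of_le_of_lt h3 hv2⟩
    rw [if_neg h1, if_neg h2]

/-- Haar coefficients in the first variable are weighted discrepancy functions -/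
theorem hr_DD4 {ι : Type*} (P : Finset ι) (w : ι → ℝ) (q0 qx qy qz : ι → ℕ)
    (K u0 u1 u2 u3 : ℝ) (x y z s t : ℕ) :
    hr s (fun v => DD4 P w q0 qx qy qz K u0 u1 u2 u3 v x y z) t
      = DD (P.filter (fun i => q0 i / 2 ^ (s + 1) = t))
          (fun i => w i * hr s (fun v => if q0 i ≤ v then (1 : ℝ) else 0) t) qx qy qz
          (K * (2 ^ (s + 1) / 4)) u1 u2 u3 x y z := by
  unfold DD4 DD
  rw [hr_sub s (fun v => ∑ i ∈ P, w i *
    (if q0 i ≤ v ∧ qx i ≤ x ∧ qy i ≤ y ∧ qz i ≤ z then (1 : ℝ) else 0)), hr_sum]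
  congr 1
  · rw [Finset.sum_filter]
    refine Finset.sum_congr rfl fun i _ => ?_
    have h1 : (fun v => w i * (if q0 i ≤ v ∧ qx i ≤ x ∧ qy i ≤ y ∧ qz i ≤ z then (1 : ℝ) else 0))
        = fun v => (w i * (if qx i ≤ x ∧ qy i ≤ y ∧ qz i ≤ z then (1 : ℝ) else 0))
          * (if q0 i ≤ v then (1 : ℝ) else 0) := by
      ext v
      by_cases c1 : q0 i ≤ v <;> by_cases c2 : qx i ≤ x ∧ qy i ≤ y ∧ qz i ≤ z <;> simp [c1, c2]
    rw [h1, hr_mul_leftR]
    by_cases hc : q0 i / 2 ^ (s + 1) = t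
    · rw [if_pos hc]; ring
    · rw [if_neg hc, hr_ind_zero s (q0 i) t hc, mul_zero]
  · have h2 : (fun v : ℕ => K * (((v : ℝ) + u0) * (((x : ℝ) + u1) * ((y : ℝ) + u2)
        * ((z : ℝ) + u3)))) = fun v : ℕ => (K * (((x : ℝ) + u1) * ((y : ℝ) + u2)
        * ((z : ℝ) + u3))) * ((v : ℝ) + u0) := by
      ext v; ring
    rw [h2, hr_mul_leftR, hr_idR]
    ring

/-- the four dimensional bound -/
theorem D4_L1 {ι : Type*} (P : Finset ι) (w : ι → ℝ) (q0 qx qy qz : ι → ℕ)
    (κ u0 u1 u2 u3 : ℝ) (hκ : 0 < κ) (n L : ℕ) (hn : 2000 ≤ n) (hL : n + 4 ≤ L)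
    (hP : P.card ≤ 2 ^ n) :
    1 / 2 ^ 94 * (κ / 2 ^ n * (n * Real.sqrt n)) ≤ av L (fun v => av3 L (fun x y z =>
      |DD4 P w q0 qx qy qz (κ / 2 ^ (4 * L)) u0 u1 u2 u3 v x y z|)) 0 := by
  set K := n / 2 with hK
  have hK0 : 0 < K := by omega
  have hKr : (0 : ℝ) < K := by exact_mod_cast hK0
  set e : ℝ := 1 / 2 ^ 19 / Real.sqrt K with he
  have hsK : 0 < Real.sqrt K := Real.sqrt_pos.2 hKr
  have hsK2 : Real.sqrt K ^ 2 = K := Real.sq_sqrt hKr.le
  have he0 : 0 ≤ e := by positivity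
  have he2 : K * e ^ 2 = 1 / 2 ^ 38 := by
    rw [he, div_pow, hsK2]
    field_simp
  have hn0 : (0 : ℝ) < n := by
    have : 0 < n := by omega
    exact_mod_cast this
  set θ : ℝ := κ / 2 ^ n * n / 2 ^ 38 with hθ
  have hθ0 : 0 ≤ θ := by positivity
  set F : ℕ → ℕ → ℕ → ℕ → ℝ := fun v x y z =>
    DD4 P w q0 qx qy qz (κ / 2 ^ (4 * L)) u0 u1 u2 u3 v x y z with hF
  -- the masses
  have hmass : ∀ a ∈ range K, 1 / 2 ^ 34 ≤ av3 L (fun x y z => av a (fun t =>
      if θ ≤ |hr (L - 1 - a) (fun v => F v x y z) t| then (1 : ℝ) else 0) 0) := by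
    intro a ha
    rw [Finset.mem_range] at ha
    rw [av3_av L a 0 (fun t x y z =>
      if θ ≤ |hr (L - 1 - a) (fun v => F v x y z) t| then (1 : ℝ) else 0)]
    set nt := n + 3 - a with hnt
    have hnt2 : nt = n + 1 - a + 2 := by omega
    have hs : L - 1 - a + 1 = L - a := by omega
    -- per t
    have h1 : ∀ t, 1 / 2 ^ 33 * (1 - 1 / 2 ^ (n + 1 - a) *
        ((P.filter (fun i => q0 i / 2 ^ (L - 1 - a + 1) = t)).card : ℝ))
        ≤ av3 L (fun x y z => if θ ≤ |hr (L - 1 - a) (fun v => F v x y z) t|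
          then (1 : ℝ) else 0) := by
      intro t
      set Pt := P.filter (fun i => q0 i / 2 ^ (L - 1 - a + 1) = t) with hPt
      by_cases hc : 4 * Pt.card ≤ 2 ^ nt
      · have h2 := P3_meas Pt (fun i => w i * hr (L - 1 - a)
          (fun v => if q0 i ≤ v then (1 : ℝ) else 0) t) qx qy qz (κ / 2 ^ a / 4) u1 u2 u3
          (by positivity) nt L (by omega) (by omega) hc
        have h3 : 1 / 2 ^ 33 * (1 - 1 / 2 ^ (n + 1 - a) * (Pt.card : ℝ)) ≤ 1 / 2 ^ 33 := by
          have h4 : 0 ≤ 1 / 2 ^ (n + 1 - a) * (Pt.card : ℝ) := by positivity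
          have h5 : (0 : ℝ) ≤ 1 / 2 ^ 33 := by positivity
          nlinarith
        refine le_trans h3 (le_trans h2 (av3_mono L fun x y z => ?_))
        have hKt : κ / 2 ^ (4 * L) * (2 ^ (L - 1 - a + 1) / 4) = κ / 2 ^ a / 4 / 2 ^ (3 * L) := by
          rw [hs]
          have e1 : (2 : ℝ) ^ (4 * L) = 2 ^ a * 2 ^ (L - a) * 2 ^ (3 * L) := by
            rw [← pow_add, ← pow_add]
            congr 1
            omega
          rw [e1]
          field_simp
        have hD : hr (L - 1 - a) (fun v => F v x y z) t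
            = DD Pt (fun i => w i * hr (L - 1 - a)
              (fun v => if q0 i ≤ v then (1 : ℝ) else 0) t) qx qy qz
              (κ / 2 ^ a / 4 / 2 ^ (3 * L)) u1 u2 u3 x y z := by
          rw [hF]
          simp only
          rw [hr_DD4, hKt]
        rw [hD]
        have hθt : θ ≤ κ / 2 ^ a / 4 * nt / 2 ^ nt / 2 ^ 32 := by
          have e1 : (2 : ℝ) ^ nt * 2 ^ a = 2 ^ n * 8 := by
            have : (2 : ℝ) ^ n * 8 = 2 ^ (n + 3) := by rw [pow_add]; norm_num
            rw [this, ← pow_add]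
            congr 1
            omega
          have e2 : κ / 2 ^ a / 4 * nt / 2 ^ nt / 2 ^ 32 = κ / 2 ^ n * nt / 2 ^ 37 := by
            have e3 : κ / 2 ^ a / 4 * nt / 2 ^ nt / 2 ^ 32
                = κ * nt / (2 ^ nt * 2 ^ a) / (4 * 2 ^ 32) := by
              field_simp
            rw [e3, e1]
            field_simp
            ring
          rw [e2, hθ]
          have e4 : (n : ℝ) ≤ 2 * nt := by
            have : n ≤ 2 * nt := by omega
            exact_mod_cast this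
          have e5 : κ / 2 ^ n * n / 2 ^ 38 = κ / 2 ^ n * (n / 2) / 2 ^ 37 := by
            field_simp
          rw [e5]
          have e6 : 0 ≤ κ / 2 ^ n := by positivity
          have e7 : κ / 2 ^ n * (n / 2) ≤ κ / 2 ^ n * nt :=
            mul_le_mul_of_nonneg_left (by linarith) e6
          exact div_le_div_of_nonneg_right e7 (by positivity)
        by_cases h6 : κ / 2 ^ a / 4 * nt / 2 ^ nt / 2 ^ 32 ≤ |DD Pt (fun i => w i *
            hr (L - 1 - a) (fun v => if q0 i ≤ v then (1 : ℝ) else 0) t) qx qy qz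
            (κ / 2 ^ a / 4 / 2 ^ (3 * L)) u1 u2 u3 x y z|
        · rw [if_pos h6, if_pos (le_trans hθt h6)]
        · rw [if_neg h6]
          split_ifs <;> norm_num
      · have h2 : 1 - 1 / 2 ^ (n + 1 - a) * (Pt.card : ℝ) ≤ 0 := by
          rw [not_le, hnt2, pow_add] at hc
          have h3 : (2 : ℝ) ^ (n + 1 - a) * 2 ^ 2 ≤ 4 * (Pt.card : ℝ) := by exact_mod_cast hc.le
          have h4 : (0 : ℝ) < 2 ^ (n + 1 - a) := by positivity
          rw [sub_nonpos, one_div, ← div_eq_inv_mul, le_div_iff₀ h4]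
          linarith
        have h5 : (0 : ℝ) ≤ 1 / 2 ^ 33 := by positivity
        have h6 : 0 ≤ av3 L (fun x y z => if θ ≤ |hr (L - 1 - a) (fun v => F v x y z) t|
          then (1 : ℝ) else 0) := av3_nonneg L fun x y z => by positivity
        nlinarith
    refine le_trans ?_ (av_mono' a 0 h1)
    rw [av_mul_left, av_sub a (fun _ => (1 : ℝ)), av_const, av_mul_left]
    have h2 : av a (fun t => ((P.filter (fun i => q0 i / 2 ^ (L - 1 - a + 1) = t)).card : ℝ)) 0
        ≤ 2 ^ n * (1 / 2) ^ a := by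
      have e1 : (fun t => ((P.filter (fun i => q0 i / 2 ^ (L - 1 - a + 1) = t)).card : ℝ))
          = fun t => ∑ i ∈ P, (if q0 i / 2 ^ (L - 1 - a + 1) = t then (1 : ℝ) else 0) := by
        ext t
        rw [Finset.card_filter]
        push_cast
        rfl
      rw [e1, av_sum]
      refine le_trans (Finset.sum_le_sum fun i _ => av_ind_le a _) ?_
      rw [Finset.sum_const, nsmul_eq_mul]
      have e2 : (P.card : ℝ) ≤ 2 ^ n := by exact_mod_cast hP
      exact mul_le_mul_of_nonneg_right e2 (by positivity)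
    have h3 : 1 / 2 ^ (n + 1 - a) * av a (fun t =>
        ((P.filter (fun i => q0 i / 2 ^ (L - 1 - a + 1) = t)).card : ℝ)) 0 ≤ 1 / 2 := by
      have h4 : (0 : ℝ) ≤ 1 / 2 ^ (n + 1 - a) := by positivity
      refine le_trans (mul_le_mul_of_nonneg_left h2 h4) (le_of_eq ?_)
      have e3 : (2 : ℝ) ^ (n + 1 - a) * 2 ^ a = 2 ^ n * 2 := by
        rw [← pow_add, ← pow_succ]
        congr 1
        omega
      rw [one_div, one_div, inv_pow, ← mul_assoc, mul_comm, ← mul_assoc, ← mul_inv,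
        mul_comm ((2 : ℝ) ^ a), e3]
      field_simp
    have h5 : (0 : ℝ) ≤ 1 / 2 ^ 33 := by positivity
    have h6 : (1 : ℝ) / 2 ^ 34 = 1 / 2 ^ 33 * (1 / 2) := by norm_num
    rw [h6]
    exact mul_le_mul_of_nonneg_left (by linarith) h5
  -- average of the Riesz inequality
  have hri : ∀ x y z, e * θ * (3 / 4 * ∑ a ∈ range K, av a (fun t =>
      if θ ≤ |hr (L - 1 - a) (fun v => F v x y z) t| then (1 : ℝ) else 0) 0 - 4 * K ^ 2 * e ^ 2)
      ≤ 2 * av L (fun v => |F v x y z|) 0 := fun x y z =>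
    riesz L K (by omega) e θ he0 hθ0 (by rw [he2]; norm_num) (fun v => F v x y z)
  have hri2 := av3_mono L hri
  rw [av3_mul, av3_mul, av3_sub, av3_mul, av3_const] at hri2
  have hsum : av3 L (fun x y z => ∑ a ∈ range K, av a (fun t =>
      if θ ≤ |hr (L - 1 - a) (fun v => F v x y z) t| then (1 : ℝ) else 0) 0)
      = ∑ a ∈ range K, av3 L (fun x y z => av a (fun t =>
      if θ ≤ |hr (L - 1 - a) (fun v => F v x y z) t| then (1 : ℝ) else 0) 0) := by
    unfold av3
    simp only [av_sum]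
  rw [hsum] at hri2
  have hsum2 := Finset.sum_le_sum hmass
  rw [Finset.sum_const, Finset.card_range, nsmul_eq_mul] at hsum2
  have hcomm : av3 L (fun x y z => av L (fun v => |F v x y z|) 0)
      = av L (fun v => av3 L (fun x y z => |F v x y z|)) 0 :=
    av3_av L L 0 (fun v x y z => |F v x y z|)
  rw [hcomm] at hri2
  have h4 : 4 * (K : ℝ) ^ 2 * e ^ 2 = K * (4 / 2 ^ 38) := by
    have : 4 * (K : ℝ) ^ 2 * e ^ 2 = 4 * K * (K * e ^ 2) := by ring
    rw [this, he2]
    ring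
  rw [h4] at hri2
  have h5 : e * θ * (K * (1 / 2 ^ 35)) ≤ 2 * av L (fun v => av3 L (fun x y z => |F v x y z|)) 0 := by
    refine le_trans (mul_le_mul_of_nonneg_left ?_ (mul_nonneg he0 hθ0)) hri2
    have : (K : ℝ) * (1 / 2 ^ 35) = 3 / 4 * (K * (1 / 2 ^ 34)) - K * (4 / 2 ^ 38) := by ring
    rw [this]
    linarith
  have h6 : e * θ * (K * (1 / 2 ^ 35)) = κ / 2 ^ n * n * Real.sqrt K * (1 / 2 ^ 92) := by
    have e1 : (K : ℝ) = Real.sqrt K * Real.sqrt K := by
      rw [← sq, hsK2]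
    have e2 : e * K = 1 / 2 ^ 19 * Real.sqrt K := by
      rw [he]
      field_simp
      rw [hsK2]
    have e3 : e * θ * (K * (1 / 2 ^ 35)) = (e * K) * θ * (1 / 2 ^ 35) := by ring
    rw [e3, e2, hθ]
    ring
  have h7 : Real.sqrt n / 2 ≤ Real.sqrt K := by
    have e1 : Real.sqrt n / 2 = Real.sqrt (n / 4) := by
      rw [Real.sqrt_div hn0.le]
      congr 1
      rw [show (4 : ℝ) = 2 ^ 2 by norm_num, Real.sqrt_sq (by norm_num)]
    rw [e1]
    refine Real.sqrt_le_sqrt ?_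
    have : n ≤ 4 * K := by omega
    have h8 : (n : ℝ) ≤ 4 * K := by exact_mod_cast this
    linarith
  rw [h6] at h5
  have h9 : 0 ≤ κ / 2 ^ n * n := by positivity
  have h10 := mul_le_mul_of_nonneg_left h7 h9
  have h11 : 1 / 2 ^ 94 * (κ / 2 ^ n * (n * Real.sqrt n))
      = (κ / 2 ^ n * n * (Real.sqrt n / 2)) * (1 / 2 ^ 92) / 2 := by ring
  rw [h11]
  have h12 : (κ / 2 ^ n * n * (Real.sqrt n / 2)) * (1 / 2 ^ 92)
      ≤ κ / 2 ^ n * n * Real.sqrt K * (1 / 2 ^ 92) :=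
    mul_le_mul_of_nonneg_right h10 (by positivity)
  linarith

end Pool.Agent.Helper93.LD
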