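import Mathlib

/-!
# Dyadic averages and Haar coefficients on `ℕ`

`av s φ t` is the average of `φ` over the dyadic block `[t 2^s, (t+1) 2^s)`, and
`hr s φ t` is the Haar coefficient of `φ` on the block `[t 2^(s+1), (t+1) 2^(s+1))`
(half of the difference between the averages over the right and the left half).
-/

set_option autoImplicit false

namespace Pool.Agent.Helper93.LD

open Finset

section general

variable {E F : Type*} [AddCommGroup E] [Module ℝ E] [AddCommGroup F] [Module ℝ F]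

/-- average over the dyadic block `t` of length `2^s` -/
noncomputable def av : ℕ → (ℕ → E) → ℕ → E
  | 0, φ, t => φ t
  | s + 1, φ, t => (1 / 2 : ℝ) • (av s φ (2 * t) + av s φ (2 * t + 1))

/-- Haar coefficient on the dyadic block `t` of length `2^(s+1)` -/
noncomputable def hr (s : ℕ) (φ : ℕ → E) (t : ℕ) : E :=
  (1 / 2 : ℝ) • (av s φ (2 * t + 1) - av s φ (2 * t))

theorem av_zero (φ : ℕ → E) (t : ℕ) : av 0 φ t = φ t := rfl

theorem av_succ (s : ℕ) (φ : ℕ → E) (t : ℕ) :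
    av (s + 1) φ t = (1 / 2 : ℝ) • (av s φ (2 * t) + av s φ (2 * t + 1)) := rfl

theorem av_add (s : ℕ) (φ ψ : ℕ → E) (t : ℕ) :
    av s (fun i => φ i + ψ i) t = av s φ t + av s ψ t := by
  induction s generalizing t with
  | zero => rfl
  | succ s ih => rw [av_succ, av_succ, av_succ, ih, ih, ← smul_add]; congr 1; abel

theorem av_smul (s : ℕ) (c : ℝ) (φ : ℕ → E) (t : ℕ) :
    av s (fun i => c • φ i) t = c • av s φ t := by
  induction s generalizing t with
  | zero => rfl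
  | succ s ih => rw [av_succ, av_succ, ih, ih, ← smul_add, smul_comm]

theorem av_const (s : ℕ) (c : E) (t : ℕ) : av s (fun _ => c) t = c := by
  induction s generalizing t with
  | zero => rfl
  | succ s ih =>
    rw [av_succ, ih, ih, ← two_smul ℝ c, smul_smul]
    norm_num

/-- `av s · t` as a linear map -/
noncomputable def avL (s t : ℕ) : (ℕ → E) →ₗ[ℝ] E where
  toFun φ := av s φ t
  map_add' φ ψ := av_add s φ ψ t
  map_smul' c φ := av_smul s c φ t

theorem avL_apply (s t : ℕ) (φ : ℕ → E) : avL s t φ = av s φ t := rfl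

/-- `hr s · t` as a linear map -/
noncomputable def hrL (s t : ℕ) : (ℕ → E) →ₗ[ℝ] E :=
  (1 / 2 : ℝ) • (avL s (2 * t + 1) - avL s (2 * t))

theorem hrL_apply (s t : ℕ) (φ : ℕ → E) : hrL s t φ = hr s φ t := rfl

theorem av_map (g : E →ₗ[ℝ] F) (s : ℕ) (φ : ℕ → E) (t : ℕ) :
    g (av s φ t) = av s (fun i => g (φ i)) t := by
  induction s generalizing t with
  | zero => rfl
  | succ s ih => rw [av_succ, av_succ, map_smul, map_add, ih, ih]

theorem hr_map (g : E →ₗ[ℝ] F) (s : ℕ) (φ : ℕ → E) (t : ℕ) :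
    g (hr s φ t) = hr s (fun i => g (φ i)) t := by
  rw [hr, hr, map_smul, map_sub, av_map, av_map]

theorem av_sub (s : ℕ) (φ ψ : ℕ → E) (t : ℕ) :
    av s (fun i => φ i - ψ i) t = av s φ t - av s ψ t :=
  map_sub (avL s t) φ ψ

theorem hr_add (s : ℕ) (φ ψ : ℕ → E) (t : ℕ) :
    hr s (fun i => φ i + ψ i) t = hr s φ t + hr s ψ t :=
  map_add (hrL s t) φ ψ

theorem hr_sub (s : ℕ) (φ ψ : ℕ → E) (t : ℕ) :
    hr s (fun i => φ i - ψ i) t = hr s φ t - hr s ψ t :=
  map_sub (hrL s t) φ ψ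

theorem hr_smul (s : ℕ) (c : ℝ) (φ : ℕ → E) (t : ℕ) :
    hr s (fun i => c • φ i) t = c • hr s φ t :=
  map_smul (hrL s t) c φ

theorem hr_const (s : ℕ) (c : E) (t : ℕ) : hr s (fun _ => c) t = 0 := by
  rw [hr, av_const, av_const, sub_self, smul_zero]

theorem av_sum {ι : Type*} (I : Finset ι) (s : ℕ) (φ : ι → ℕ → E) (t : ℕ) :
    av s (fun i => ∑ j ∈ I, φ j i) t = ∑ j ∈ I, av s (φ j) t := by
  have h := map_sum (avL (E := E) s t) φ I
  rw [avL_apply] at h
  simp only [avL_apply] at h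
  rw [← h]
  congr 1
  ext i
  rw [Finset.sum_apply]

theorem hr_sum {ι : Type*} (I : Finset ι) (s : ℕ) (φ : ι → ℕ → E) (t : ℕ) :
    hr s (fun i => ∑ j ∈ I, φ j i) t = ∑ j ∈ I, hr s (φ j) t := by
  rw [hr, av_sum, av_sum, ← Finset.sum_sub_distrib, Finset.smul_sum]
  rfl

/-- averages in different variables commute -/
theorem av_comm (s r : ℕ) (f : ℕ → ℕ → E) (t u : ℕ) :
    av s (fun x => av r (fun y => f x y) u) t = av r (fun y => av s (fun x => f x y) t) u := by
  have h := av_map (avL (E := E) r u) s (fun x => fun y => f x y) t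
  simp only [avL_apply] at h
  rw [← h]
  congr 1
  ext y
  have h2 := av_map (LinearMap.proj (R := ℝ) (φ := fun _ : ℕ => E) y) s (fun x => fun y => f x y) t
  simpa using h2

theorem hr_av_comm (s r : ℕ) (f : ℕ → ℕ → E) (t u : ℕ) :
    hr s (fun x => av r (fun y => f x y) u) t = av r (fun y => hr s (fun x => f x y) t) u := by
  simp only [hr]
  rw [av_comm s r f (2 * t + 1) u, av_comm s r f (2 * t) u, ← av_sub, ← av_smul]

theorem av_add_scale (a b : ℕ) (φ : ℕ → E) (t : ℕ) :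
    av (a + b) φ t = av a (fun i => av b φ i) t := by
  induction a generalizing t with
  | zero => rw [Nat.zero_add]; rfl
  | succ a ih => rw [Nat.succ_add, av_succ, av_succ, ih, ih]

theorem av_succ' (s : ℕ) (φ : ℕ → E) (t : ℕ) :
    av (s + 1) φ t = av s (fun i => (1 / 2 : ℝ) • (φ (2 * i) + φ (2 * i + 1))) t :=
  av_add_scale s 1 φ t

theorem hr_succ' (s : ℕ) (φ : ℕ → E) (t : ℕ) :
    hr (s + 1) φ t = hr s (fun i => (1 / 2 : ℝ) • (φ (2 * i) + φ (2 * i + 1))) t := by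
  rw [hr, hr, av_succ', av_succ']

/-- congruence on the block -/
theorem av_congr (s : ℕ) {φ ψ : ℕ → E} (t : ℕ)
    (h : ∀ i, t * 2 ^ s ≤ i → i < (t + 1) * 2 ^ s → φ i = ψ i) : av s φ t = av s ψ t := by
  induction s generalizing t with
  | zero => exact h t (by simp) (by simp)
  | succ s ih =>
    rw [av_succ, av_succ, ih (2 * t), ih (2 * t + 1)]
    · intro i h1 h2
      refine h i (le_trans ?_ h1) (lt_of_lt_of_eq h2 ?_)
      · rw [pow_succ]; nlinarith [pow_pos (by norm_num : 0 < 2) s]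
      · rw [pow_succ]; ring
    · intro i h1 h2
      refine h i (le_trans (le_of_eq ?_) h1) (lt_of_lt_of_le h2 ?_)
      · rw [pow_succ]; ring
      · rw [pow_succ]; nlinarith [pow_pos (by norm_num : 0 < 2) s]

theorem hr_congr (s : ℕ) {φ ψ : ℕ → E} (t : ℕ)
    (h : ∀ i, t * 2 ^ (s + 1) ≤ i → i < (t + 1) * 2 ^ (s + 1) → φ i = ψ i) :
    hr s φ t = hr s ψ t := by
  have hp : 0 < 2 ^ s := pow_pos (by norm_num) s
  rw [hr, hr, av_congr s (2 * t), av_congr s (2 * t + 1)]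
  · intro i h1 h2
    refine h i (le_trans ?_ h1) (lt_of_lt_of_eq h2 ?_)
    · rw [pow_succ]; nlinarith
    · rw [pow_succ]; ring
  · intro i h1 h2
    refine h i (le_trans (le_of_eq ?_) h1) (lt_of_lt_of_le h2 ?_)
    · rw [pow_succ]; ring
    · rw [pow_succ]; nlinarith

end general

/-! ### real valued functions -/

theorem av_mono (s : ℕ) {φ ψ : ℕ → ℝ} (t : ℕ)
    (h : ∀ i, t * 2 ^ s ≤ i → i < (t + 1) * 2 ^ s → φ i ≤ ψ i) : av s φ t ≤ av s ψ t := by
  induction s generalizing t with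
  | zero => exact h t (by simp) (by simp)
  | succ s ih =>
    have hp : 0 < 2 ^ s := pow_pos (by norm_num) s
    rw [av_succ, av_succ]
    have h1 := ih (2 * t) (by
      intro i h1 h2
      refine h i (le_trans (le_of_eq ?_) h1) (lt_of_lt_of_le h2 ?_)
      · rw [pow_succ]; ring
      · rw [pow_succ]; nlinarith)
    have h2 := ih (2 * t + 1) (by
      intro i h1 h2
      refine h i (le_trans ?_ h1) (lt_of_lt_of_eq h2 ?_)
      · rw [pow_succ]; nlinarith
      · rw [pow_succ]; ring)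
    simp only [smul_eq_mul]
    linarith

theorem av_mono' (s : ℕ) {φ ψ : ℕ → ℝ} (t : ℕ) (h : ∀ i, φ i ≤ ψ i) : av s φ t ≤ av s ψ t :=
  av_mono s t fun i _ _ => h i

theorem av_nonneg (s : ℕ) {φ : ℕ → ℝ} (t : ℕ) (h : ∀ i, 0 ≤ φ i) : 0 ≤ av s φ t := by
  have := av_mono' s (φ := fun _ => (0 : ℝ)) t h
  rwa [av_const] at this

theorem av_le_const (s : ℕ) {φ : ℕ → ℝ} (t : ℕ) (c : ℝ)
    (h : ∀ i, t * 2 ^ s ≤ i → i < (t + 1) * 2 ^ s → φ i ≤ c) : av s φ t ≤ c := by
  have := av_mono s (ψ := fun _ => c) t h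
  rwa [av_const] at this

theorem const_le_av (s : ℕ) {φ : ℕ → ℝ} (t : ℕ) (c : ℝ)
    (h : ∀ i, t * 2 ^ s ≤ i → i < (t + 1) * 2 ^ s → c ≤ φ i) : c ≤ av s φ t := by
  have := av_mono s (φ := fun _ => c) t h
  rwa [av_const] at this

theorem av_mul_left (s : ℕ) (c : ℝ) (φ : ℕ → ℝ) (t : ℕ) :
    av s (fun i => c * φ i) t = c * av s φ t := av_smul s c φ t

/-! ### norms -/

section normed

variable {E : Type*} [NormedAddCommGroup E] [NormedSpace ℝ E]

theorem norm_av_le (s : ℕ) (φ : ℕ → E) (t : ℕ) : ‖av s φ t‖ ≤ av s (fun i => ‖φ i‖) t := by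
  induction s generalizing t with
  | zero => exact le_refl _
  | succ s ih =>
    rw [av_succ, av_succ, norm_smul, smul_eq_mul]
    have h : ‖(1 / 2 : ℝ)‖ = 1 / 2 := by norm_num
    rw [h]
    have := norm_add_le (av s φ (2 * t)) (av s φ (2 * t + 1))
    have h1 := ih (2 * t)
    have h2 := ih (2 * t + 1)
    linarith

theorem norm_hr_le (s : ℕ) (φ : ℕ → E) (t : ℕ) : ‖hr s φ t‖ ≤ av (s + 1) (fun i => ‖φ i‖) t := by
  rw [hr, av_succ, norm_smul, smul_eq_mul]
  have h : ‖(1 / 2 : ℝ)‖ = 1 / 2 := by norm_num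
  rw [h]
  have := norm_sub_le (av s φ (2 * t + 1)) (av s φ (2 * t))
  have h1 := norm_av_le s φ (2 * t)
  have h2 := norm_av_le s φ (2 * t + 1)
  linarith

end normed

/-! ### complex valued functions: parallelogram law and Bessel inequality -/

theorem av_mul_left_c (s : ℕ) (c : ℂ) (φ : ℕ → ℂ) (t : ℕ) :
    av s (fun i => c * φ i) t = c * av s φ t := by
  induction s generalizing t with
  | zero => rfl
  | succ s ih =>
    rw [av_succ, av_succ, ih, ih, ← mul_add, mul_smul_comm]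

theorem hr_mul_left_c (s : ℕ) (c : ℂ) (φ : ℕ → ℂ) (t : ℕ) :
    hr s (fun i => c * φ i) t = c * hr s φ t := by
  rw [hr, hr, av_mul_left_c, av_mul_left_c, ← mul_sub, mul_smul_comm]

theorem parallelogram_aux (a b : ℂ) :
    ‖(1 / 2 : ℝ) • (a + b)‖ ^ 2 + ‖(1 / 2 : ℝ) • (b - a)‖ ^ 2 = (‖a‖ ^ 2 + ‖b‖ ^ 2) / 2 := by
  rw [← Complex.normSq_eq_norm_sq, ← Complex.normSq_eq_norm_sq, ← Complex.normSq_eq_norm_sq,
    ← Complex.normSq_eq_norm_sq]
  simp only [Complex.normSq_apply, Complex.real_smul, Complex.mul_re, Complex.mul_im,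
    Complex.add_re, Complex.add_im, Complex.sub_re, Complex.sub_im, Complex.ofReal_re,
    Complex.ofReal_im]
  ring

theorem parallelogram (s : ℕ) (φ : ℕ → ℂ) (t : ℕ) :
    ‖av (s + 1) φ t‖ ^ 2 + ‖hr s φ t‖ ^ 2
      = (‖av s φ (2 * t)‖ ^ 2 + ‖av s φ (2 * t + 1)‖ ^ 2) / 2 := by
  rw [av_succ, hr]
  exact parallelogram_aux _ _

/-- one step of the energy identity -/
theorem energy_step (s k : ℕ) (φ : ℕ → ℂ) (t : ℕ) :
    av (k + 1) (fun i => ‖av s φ i‖ ^ 2) t
      = av k (fun i => ‖av (s + 1) φ i‖ ^ 2) t + av k (fun i => ‖hr s φ i‖ ^ 2) t := by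
  rw [av_succ', ← av_add]
  congr 1
  ext i
  rw [parallelogram, smul_eq_mul]
  ring

/-- Parseval identity -/
theorem parseval (L : ℕ) (φ : ℕ → ℂ) (t : ℕ) :
    ∑ a ∈ range L, av a (fun i => ‖hr (L - 1 - a) φ i‖ ^ 2) t + ‖av L φ t‖ ^ 2
      = av L (fun i => ‖φ i‖ ^ 2) t := by
  induction L generalizing φ with
  | zero => simp [av]
  | succ L ih =>
    have h1 := energy_step 0 L φ t
    simp only [av_zero] at h1
    rw [h1, Finset.sum_range_succ]
    have h2 := ih (fun i => av 1 φ i)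
    have h3 : av L (fun i => av 1 φ i) t = av (L + 1) φ t := (av_add_scale L 1 φ t).symm
    rw [h3] at h2
    have h4 : ∀ a ∈ range L, av a (fun i => ‖hr (L - 1 - a) (fun i => av 1 φ i) i‖ ^ 2) t
        = av a (fun i => ‖hr (L + 1 - 1 - a) φ i‖ ^ 2) t := by
      intro a ha
      have ha' : L + 1 - 1 - a = L - 1 - a + 1 := by
        rw [Finset.mem_range] at ha
        omega
      rw [ha']
      congr 1
      ext i
      rw [hr_succ']
      rfl
    rw [Finset.sum_congr rfl h4] at h2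
    have h5 : L + 1 - 1 - L = 0 := by omega
    rw [h5]
    have h6 : av L (fun i => ‖av (0 + 1) φ i‖ ^ 2) t = av L (fun i => ‖av 1 φ i‖ ^ 2) t := rfl
    linarith

theorem bessel_sum (L l : ℕ) (hl : l ≤ L) (φ : ℕ → ℂ) (t : ℕ) :
    ∑ a ∈ range l, av a (fun i => ‖hr (L - 1 - a) φ i‖ ^ 2) t ≤ av L (fun i => ‖φ i‖ ^ 2) t := by
  rw [← parseval L φ t]
  have h1 : ∑ a ∈ range l, av a (fun i => ‖hr (L - 1 - a) φ i‖ ^ 2) t
      ≤ ∑ a ∈ range L, av a (fun i => ‖hr (L - 1 - a) φ i‖ ^ 2) t :=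
    Finset.sum_le_sum_of_subset_of_nonneg (Finset.range_mono hl)
      fun a _ _ => av_nonneg _ _ fun i => by positivity
  have h2 : 0 ≤ ‖av L φ t‖ ^ 2 := by positivity
  linarith

theorem bessel_one (L b : ℕ) (hb : b < L) (φ : ℕ → ℂ) (t : ℕ) :
    av b (fun i => ‖hr (L - 1 - b) φ i‖ ^ 2) t ≤ av L (fun i => ‖φ i‖ ^ 2) t := by
  refine le_trans ?_ (bessel_sum L (b + 1) hb φ t)
  rw [Finset.sum_range_succ]
  have : 0 ≤ ∑ a ∈ range b, av a (fun i => ‖hr (L - 1 - a) φ i‖ ^ 2) t :=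
    Finset.sum_nonneg fun a _ => av_nonneg _ _ fun i => by positivity
  linarith

/-- Bessel inequality for rectangles of shapes `(a, l - a)` -/
theorem bessel_two (L l : ℕ) (hl : l < L) (φ : ℕ → ℕ → ℂ) :
    ∑ a ∈ range (l + 1), av a (fun tx => av (l - a) (fun ty =>
        ‖hr (L - 1 - (l - a)) (fun y => hr (L - 1 - a) (fun x => φ x y) tx) ty‖ ^ 2) 0) 0
      ≤ av L (fun x => av L (fun y => ‖φ x y‖ ^ 2) 0) 0 := by
  have h1 : ∀ a ∈ range (l + 1), av a (fun tx => av (l - a) (fun ty =>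
        ‖hr (L - 1 - (l - a)) (fun y => hr (L - 1 - a) (fun x => φ x y) tx) ty‖ ^ 2) 0) 0
      ≤ av L (fun y => av a (fun tx => ‖hr (L - 1 - a) (fun x => φ x y) tx‖ ^ 2) 0) 0 := by
    intro a ha
    rw [av_comm L a]
    refine av_mono' _ _ fun tx => ?_
    exact bessel_one L (l - a) (by omega) (fun y => hr (L - 1 - a) (fun x => φ x y) tx) 0
  refine le_trans (Finset.sum_le_sum h1) ?_
  rw [← av_sum, av_comm L L]
  refine av_mono' _ _ fun y => ?_
  exact bessel_sum L (l + 1) (by omega) (fun x => φ x y) 0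

end Pool.Agent.Helper93.LD
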