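import Pool.Agent.Helper93.LD.Level

/-!
# Energies and the averaged level inequality
-/

set_option autoImplicit false

namespace Pool.Agent.Helper93.LD

open Finset Complex

/-- energy of the `z`-averages over the dyadic blocks of length `2^s` -/
noncomputable def EN (L s : ℕ) (h : ℕ → ℕ → ℕ → ℂ) : ℝ :=
  av2 L (fun x y => av (L - s) (fun t => ‖av s (h x y) t‖ ^ 2) 0)

/-- energy of the `z`-Haar coefficients at scale `s` -/
noncomputable def HN (L s : ℕ) (h : ℕ → ℕ → ℕ → ℂ) : ℝ :=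
  av2 L (fun x y => av (L - 1 - s) (fun t => ‖hr s (h x y) t‖ ^ 2) 0)

theorem av2_add (L : ℕ) (φ ψ : ℕ → ℕ → ℝ) :
    av2 L (fun x y => φ x y + ψ x y) = av2 L φ + av2 L ψ := by
  unfold av2
  rw [← av_add]
  congr 1
  ext y
  rw [av_add]

theorem av2_sub (L : ℕ) (φ ψ : ℕ → ℕ → ℝ) :
    av2 L (fun x y => φ x y - ψ x y) = av2 L φ - av2 L ψ := by
  unfold av2
  rw [← av_sub]
  congr 1
  ext y
  rw [av_sub]

theorem av2_mul (L : ℕ) (c : ℝ) (φ : ℕ → ℕ → ℝ) :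
    av2 L (fun x y => c * φ x y) = c * av2 L φ := by
  unfold av2
  rw [← av_mul_left]
  congr 1
  ext y
  rw [av_mul_left]

theorem av2_const (L : ℕ) (c : ℝ) : av2 L (fun _ _ => c) = c := by
  unfold av2
  rw [av_const, av_const]

theorem av2_mono (L : ℕ) {φ ψ : ℕ → ℕ → ℝ} (h : ∀ x y, φ x y ≤ ψ x y) : av2 L φ ≤ av2 L ψ := by
  unfold av2
  exact av_mono' _ _ fun y => av_mono' _ _ fun x => h x y

theorem av_av2 (L s t : ℕ) (F : ℕ → ℕ → ℕ → ℝ) :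
    av s (fun z => av2 L (F z)) t = av2 L (fun x y => av s (fun z => F z x y) t) := by
  unfold av2
  rw [av_comm s L]
  congr 1
  ext y
  rw [av_comm s L]

theorem EN_step (L s : ℕ) (hs : s < L) (h : ℕ → ℕ → ℕ → ℂ) :
    EN L s h = EN L (s + 1) h + HN L s h := by
  unfold EN HN
  rw [← av2_add]
  congr 1
  ext x y
  have e1 : L - s = (L - 1 - s) + 1 := by omega
  have e2 : L - (s + 1) = L - 1 - s := by omega
  rw [e1, e2]
  exact energy_step s (L - 1 - s) (h x y) 0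

theorem HN_nonneg (L s : ℕ) (h : ℕ → ℕ → ℕ → ℂ) : 0 ≤ HN L s h :=
  av2_nonneg _ _ fun x y => av_nonneg _ _ fun t => by positivity

theorem EN_zero (L : ℕ) (h : ℕ → ℕ → ℕ → ℂ) (hh : ∀ x y z, ‖h x y z‖ = 1) : EN L 0 h = 1 := by
  unfold EN
  have e1 : ∀ x y, av (L - 0) (fun t => ‖av 0 (h x y) t‖ ^ 2) 0 = 1 := by
    intro x y
    have e2 : (fun t => ‖av 0 (h x y) t‖ ^ 2) = fun _ => (1 : ℝ) := by
      ext t
      rw [av_zero, hh]
      norm_num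
    rw [e2, av_const]
  simp only [e1]
  exact av2_const L 1

theorem EN_sum (L : ℕ) (h : ℕ → ℕ → ℕ → ℂ) (hh : ∀ x y z, ‖h x y z‖ = 1) (m : ℕ) (hm : m ≤ L) :
    ∑ s ∈ range m, HN L s h = 1 - EN L m h := by
  induction m with
  | zero => rw [Finset.sum_range_zero, EN_zero L h hh, sub_self]
  | succ m ih =>
    rw [Finset.sum_range_succ, ih (by omega), EN_step L m (by omega) h]
    ring

theorem EN_anti (L : ℕ) (h : ℕ → ℕ → ℕ → ℂ) (s m : ℕ) (hsm : s ≤ m) (hm : m ≤ L) :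
    EN L m h ≤ EN L s h := by
  induction m with
  | zero =>
    have : s = 0 := by omega
    rw [this]
  | succ m ih =>
    rcases Nat.lt_or_ge m s with h1 | h1
    · have : s = m + 1 := by omega
      rw [this]
    · have h2 := ih h1 (by omega)
      have h3 := EN_step L m (by omega) h
      have h4 := HN_nonneg L m h
      linarith

/-- the level inequality -/
theorem level_ineq (L s l : ℕ) (hl : l ≤ s) (hs : s < L) (h : ℕ → ℕ → ℕ → ℂ)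
    (hh : ∀ x y z, ‖h x y z‖ = 1) (ρ η μ : ℝ) (hρ0 : 0 ≤ ρ) (hρ1 : ρ ≤ 1) (hη : 0 < η)
    (hμ : 0 < μ)
    (g : ℕ → ℕ → ℕ → ℕ → ℝ) (hg0 : ∀ t a tx ty, 0 ≤ g t a tx ty)
    (hg1 : ∀ t a tx ty, g t a tx ty ≤ 1)
    (hH : ∀ t z z', 2 * t * 2 ^ s ≤ z → z < (2 * t + 1) * 2 ^ s → (2 * t + 1) * 2 ^ s ≤ z' →
      z' < (2 * t + 1 + 1) * 2 ^ s → ∀ a, a ≤ l → ∀ tx ty, g t a tx ty ≠ 0 →
      ∃ u v : ℕ → ℂ, (∀ x, ‖u x‖ = 1) ∧ (∀ y, ‖v y‖ = 1) ∧
      ∀ x, tx * 2 ^ (L - 1 - a + 1) ≤ x → x < (tx + 1) * 2 ^ (L - 1 - a + 1) →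
      ∀ y, ty * 2 ^ (L - 1 - (l - a) + 1) ≤ y → y < (ty + 1) * 2 ^ (L - 1 - (l - a) + 1) →
      h x y z * (starRingEnd ℂ) (h x y z') = u x * v y * exp (I * ((
        ρ * (((z' : ℝ) - z) / 2 ^ (s + 1))
        / (2 ^ (L - 1 - a + 1) * 2 ^ (L - 1 - (l - a) + 1)) *
        ((x : ℝ) - (tx * 2 ^ (L - 1 - a + 1) : ℕ)) *
        ((y : ℝ) - (ty * 2 ^ (L - 1 - (l - a) + 1) : ℕ)) : ℝ) : ℂ)))
    (hgood : 3 / 4 * (l + 1) ≤ av (L - 1 - s) (fun t => shp l (g t)) 0) :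
    2 * μ * (ρ / 32 * (3 / 4 * (l + 1)) - (l + 1) * (4 * ρ ^ 2 + ρ * η)
      - ((l + 1) * (ρ / (4 * η)) + 2) * (2 - 2 * EN L s h + 4 * HN L s h)) - μ ^ 2 * (l + 1)
      ≤ 4 * HN L s h := by
  have hl' : l < L := by omega
  -- per t
  have h1 : ∀ t, 2 * μ * (ρ / 32 * shp l (g t) - ((l + 1) * (4 * ρ ^ 2 + ρ * η)
      + ((l + 1) * (ρ / (4 * η)) + 2) * av2 L (fun x y =>
          2 - (‖av s (h x y) (2 * t)‖ ^ 2 + ‖av s (h x y) (2 * t + 1)‖ ^ 2)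
            + 4 * ‖hr s (h x y) t‖ ^ 2))) - μ ^ 2 * (l + 1)
      ≤ 4 * av2 L (fun x y => ‖hr s (h x y) t‖ ^ 2) := by
    intro t
    have k1 := pair_ineq L s l t hl' h hh ρ η hρ0 hρ1 hη (g t) (hg0 t) (hg1 t) (hH t)
    have k2 := test_good L l hl' (vv s t h) (g t) (hg0 t) (hg1 t) μ hμ
    have k3 : av2 L (fun x y => (vv s t h x y).im ^ 2)
        ≤ 4 * av2 L (fun x y => ‖hr s (h x y) t‖ ^ 2) := by
      rw [← av2_mul]
      exact av2_mono L fun x y => im_vv_sq_le s t h (fun x y z => (hh x y z).le) x y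
    have k4 := mul_le_mul_of_nonneg_left k1 (by positivity : 0 ≤ 2 * μ)
    have k5 : 2 * μ * (ρ / 32 * shp l (g t) - ((l + 1) * (4 * ρ ^ 2 + ρ * η)
      + ((l + 1) * (ρ / (4 * η)) + 2) * av2 L (fun x y =>
          2 - (‖av s (h x y) (2 * t)‖ ^ 2 + ‖av s (h x y) (2 * t + 1)‖ ^ 2)
            + 4 * ‖hr s (h x y) t‖ ^ 2)))
        = 2 * μ * (ρ / 32 * shp l (g t) - (l + 1) * (4 * ρ ^ 2 + ρ * η)
      - ((l + 1) * (ρ / (4 * η)) + 2) * av2 L (fun x y =>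
          2 - (‖av s (h x y) (2 * t)‖ ^ 2 + ‖av s (h x y) (2 * t + 1)‖ ^ 2)
            + 4 * ‖hr s (h x y) t‖ ^ 2)) := by ring
    rw [k5]
    linarith
  have h2 := av_mono' (L - 1 - s) 0 h1
  have h3 : av (L - 1 - s) (fun t => 4 * av2 L (fun x y => ‖hr s (h x y) t‖ ^ 2)) 0
      = 4 * HN L s h := by
    rw [av_mul_left]
    unfold HN
    rw [av_av2]
  rw [h3] at h2
  refine le_trans ?_ h2
  rw [av_sub (L - 1 - s) (fun t => 2 * μ * (ρ / 32 * shp l (g t)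
      - ((l + 1) * (4 * ρ ^ 2 + ρ * η)
      + ((l + 1) * (ρ / (4 * η)) + 2) * av2 L (fun x y =>
          2 - (‖av s (h x y) (2 * t)‖ ^ 2 + ‖av s (h x y) (2 * t + 1)‖ ^ 2)
            + 4 * ‖hr s (h x y) t‖ ^ 2)))) (fun _ => μ ^ 2 * ((l : ℝ) + 1)), av_const,
    av_mul_left, av_sub, av_mul_left, av_add, av_const, av_mul_left]
  have h4 : av (L - 1 - s) (fun t => av2 L (fun x y =>
          2 - (‖av s (h x y) (2 * t)‖ ^ 2 + ‖av s (h x y) (2 * t + 1)‖ ^ 2)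
            + 4 * ‖hr s (h x y) t‖ ^ 2)) 0
      = 2 - 2 * EN L s h + 4 * HN L s h := by
    rw [av_av2]
    have e1 : ∀ x y, av (L - 1 - s) (fun t =>
          2 - (‖av s (h x y) (2 * t)‖ ^ 2 + ‖av s (h x y) (2 * t + 1)‖ ^ 2)
            + 4 * ‖hr s (h x y) t‖ ^ 2) 0
        = 2 - 2 * av (L - s) (fun t => ‖av s (h x y) t‖ ^ 2) 0
          + 4 * av (L - 1 - s) (fun t => ‖hr s (h x y) t‖ ^ 2) 0 := by
      intro x y
      rw [av_add, av_sub (L - 1 - s) (fun _ => (2 : ℝ)), av_const, av_mul_left]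
      have e2 : L - s = (L - 1 - s) + 1 := by omega
      have e3 : (fun t => ‖av s (h x y) (2 * t)‖ ^ 2 + ‖av s (h x y) (2 * t + 1)‖ ^ 2)
          = fun t => 2 * ((1 / 2 : ℝ) • (‖av s (h x y) (2 * t)‖ ^ 2
            + ‖av s (h x y) (2 * t + 1)‖ ^ 2)) := by
        ext t
        rw [smul_eq_mul]
        ring
      rw [e2, av_succ', e3, av_mul_left]
    simp only [e1]
    rw [av2_add, av2_sub L (fun _ _ => (2 : ℝ)), av2_const, av2_mul, av2_mul]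
    rfl
  rw [h4]
  have h5 : ρ / 32 * (3 / 4 * (l + 1)) ≤ ρ / 32 * av (L - 1 - s) (fun t => shp l (g t)) 0 :=
    mul_le_mul_of_nonneg_left hgood (by positivity)
  have h6 : 2 * μ * (ρ / 32 * (3 / 4 * (l + 1)) - (l + 1) * (4 * ρ ^ 2 + ρ * η)
      - ((l + 1) * (ρ / (4 * η)) + 2) * (2 - 2 * EN L s h + 4 * HN L s h))
      ≤ 2 * μ * (ρ / 32 * av (L - 1 - s) (fun t => shp l (g t)) 0
        - ((l + 1) * (4 * ρ ^ 2 + ρ * η)
        + ((l + 1) * (ρ / (4 * η)) + 2) * (2 - 2 * EN L s h + 4 * HN L s h))) :=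
    mul_le_mul_of_nonneg_left (by linarith) (by positivity)
  linarith

end Pool.Agent.Helper93.LD
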