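import Pool.Agent.Helper93.LD.D4
import Pool.Agent.Helper1.LD.Small

/-!
# The `L^1` norm of the discrepancy function: assembly
-/

set_option autoImplicit false

namespace Pool.Agent.Helper93.LD

open Finset

set_option exponentiation.threshold 3000

theorem avd_av (L m s t : ℕ) (F : ℕ → (Fin m → ℕ) → ℝ) :
    avd L m (fun k => av s (fun w => F w k) t) = av s (fun w => avd L m (F w)) t := by
  induction m with
  | zero => rfl
  | succ m ih =>
    unfold avd
    simp only [ih]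
    rw [av_comm]

theorem avd_nonneg (L m : ℕ) (g : (Fin m → ℕ) → ℝ) (h : ∀ k, 0 ≤ g k) : 0 ≤ avd L m g := by
  induction m with
  | zero => exact h _
  | succ m ih =>
    unfold avd
    exact av_nonneg _ _ fun x => ih _ fun v => h _

/-- only the points in the upper halves are used -/
theorem avd_lower (L m : ℕ) (g : (Fin m → ℕ) → ℝ) (hg : ∀ k, 0 ≤ g k) (B : ℝ)
    (h : ∀ k : Fin m → ℕ, (∀ i, 2 ^ L ≤ k i) → B ≤ g k) :
    B / 2 ^ m ≤ avd (L + 1) m g := by
  induction m with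
  | zero =>
    simp only [pow_zero, div_one]
    exact h _ fun i => i.elim0
  | succ m ih =>
    unfold avd
    rw [av_succ, smul_eq_mul]
    have h1 : 0 ≤ av L (fun x => avd (L + 1) m (fun v => g (Fin.cons x v))) (2 * 0) :=
      av_nonneg _ _ fun x => avd_nonneg _ _ _ fun v => hg _
    have h2 : B / 2 ^ m ≤ av L (fun x => avd (L + 1) m (fun v => g (Fin.cons x v)))
        (2 * 0 + 1) := by
      refine const_le_av _ _ _ fun x hx1 _ => ?_
      refine ih _ (fun v => hg _) fun k hk => h _ ?_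
      intro i
      refine Fin.cases ?_ (fun j => ?_) i
      · simpa using hx1
      · simpa using hk j
    have h3 : B / 2 ^ (m + 1) = 1 / 2 * (B / 2 ^ m) := by
      rw [pow_succ]; field_simp
    rw [h3]
    linarith

/-- dimension three -/
theorem disc_three (n : ℕ) (hn : 1000 ≤ n) (P : Finset (Fin 3 → ℝ)) (hP : 4 * P.card ≤ 2 ^ n)
    (hP2 : 2 ^ n ≤ 8 * P.card) :
    (n : ℝ) / 2 ^ 68 ≤ ∫ x in Set.Icc (0 : Fin 3 → ℝ) 1, absdisc P P.card x := by
  refine int_reduction 3 (n + 1) P P.card _ fun u _ q => ?_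
  have hP0 : 0 < P.card := by
    have : 0 < 2 ^ n := pow_pos (by norm_num) n
    omega
  have hκ : (0 : ℝ) < P.card := by exact_mod_cast hP0
  have h1 := P3_meas P (fun _ => 1) (fun p => q p 0) (fun p => q p 1) (fun p => q p 2)
    (P.card : ℝ) (u 0) (u 1) (u 2) hκ n (n + 1) hn le_rfl hP
  have h2 : avd (n + 1) 3 (fun k => |∑ p ∈ P, (if ∀ i, q p i ≤ k i then (1 : ℝ) else 0)
        - (P.card : ℝ) * ∏ i, (((k i : ℝ) + u i) / 2 ^ (n + 1))|)
      = av3 (n + 1) (fun x y z => |DD P (fun _ => 1) (fun p => q p 0) (fun p => q p 1)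
        (fun p => q p 2) ((P.card : ℝ) / 2 ^ (3 * (n + 1))) (u 0) (u 1) (u 2) x y z|) := by
    unfold avd av3
    congr 1
    ext x
    unfold avd
    congr 1
    ext y
    unfold avd
    congr 1
    ext z
    unfold avd DD
    beta_reduce
    congr 1
    congr 1
    · refine Finset.sum_congr rfl fun p _ => ?_
      rw [one_mul]
      have hiff : (∀ i : Fin 3, q p i ≤ (Fin.cons x (Fin.cons y (Fin.cons z
          (fun i : Fin 0 => i.elim0 : Fin 0 → ℕ) : Fin 1 → ℕ) : Fin 2 → ℕ) : Fin 3 → ℕ) i)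
          ↔ q p 0 ≤ x ∧ q p 1 ≤ y ∧ q p 2 ≤ z := by
        rw [Fin.forall_fin_succ, Fin.forall_fin_succ, Fin.forall_fin_succ]
        constructor
        · rintro ⟨h1, h2, h3, _⟩
          exact ⟨h1, h2, h3⟩
        · rintro ⟨h1, h2, h3⟩
          exact ⟨h1, h2, h3, fun i => i.elim0⟩
      simp only [hiff]
    · rw [Fin.prod_univ_three]
      have e1 : ((Fin.cons x (Fin.cons y (Fin.cons z
          (fun i : Fin 0 => i.elim0 : Fin 0 → ℕ) : Fin 1 → ℕ) : Fin 2 → ℕ) : Fin 3 → ℕ) 0) = x :=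
        rfl
      have e2 : ((Fin.cons x (Fin.cons y (Fin.cons z
          (fun i : Fin 0 => i.elim0 : Fin 0 → ℕ) : Fin 1 → ℕ) : Fin 2 → ℕ) : Fin 3 → ℕ) 1) = y :=
        rfl
      have e3 : ((Fin.cons x (Fin.cons y (Fin.cons z
          (fun i : Fin 0 => i.elim0 : Fin 0 → ℕ) : Fin 1 → ℕ) : Fin 2 → ℕ) : Fin 3 → ℕ) 2) = z :=
        rfl
      rw [e1, e2, e3]
      have e4 : (2 : ℝ) ^ (3 * (n + 1)) = 2 ^ (n + 1) * 2 ^ (n + 1) * 2 ^ (n + 1) := by
        rw [← pow_add, ← pow_add]; congr 1; ring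
      rw [e4]
      field_simp
  rw [h2]
  set D := DD P (fun _ => 1) (fun p => q p 0) (fun p => q p 1)
        (fun p => q p 2) ((P.card : ℝ) / 2 ^ (3 * (n + 1))) (u 0) (u 1) (u 2) with hD
  set θ : ℝ := (P.card : ℝ) * n / 2 ^ n / 2 ^ 32 with hθ
  have hθ0 : 0 ≤ θ := by positivity
  have h3 : av3 (n + 1) (fun x y z => θ * (if θ ≤ |D x y z| then (1 : ℝ) else 0))
      ≤ av3 (n + 1) (fun x y z => |D x y z|) := by
    refine av3_mono _ fun x y z => ?_
    split_ifs with hc
    · linarith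
    · have := abs_nonneg (D x y z)
      linarith
  rw [av3_mul] at h3
  have h4 := mul_le_mul_of_nonneg_left h1 hθ0
  refine le_trans ?_ (le_trans h4 h3)
  have h5 : (2 : ℝ) ^ n ≤ 8 * P.card := by exact_mod_cast hP2
  have h6 : (1 : ℝ) / 8 ≤ P.card / 2 ^ n := by
    rw [le_div_iff₀ (by positivity)]
    linarith
  have h7 : θ * (1 / 2 ^ 33) = (P.card / 2 ^ n) * ((n : ℝ) / 2 ^ 65) := by
    rw [hθ]
    ring
  have h8 : (n : ℝ) / 2 ^ 68 = 1 / 8 * ((n : ℝ) / 2 ^ 65) := by
    ring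
  rw [h7, h8]
  exact mul_le_mul_of_nonneg_right h6 (by positivity)

/-- dimension at least four -/
theorem disc_four (m n : ℕ) (hn : 2000 ≤ n) (P : Finset (Fin (m + 4) → ℝ)) (hP : P.card ≤ 2 ^ n)
    (hP2 : 2 ^ n ≤ 2 * P.card) :
    1 / 2 ^ (2 * m + 95) * ((n : ℝ) * Real.sqrt n)
      ≤ ∫ x in Set.Icc (0 : Fin (m + 4) → ℝ) 1, absdisc P P.card x := by
  classical
  set L := n + 3 with hL
  refine int_reduction (m + 4) (L + 1) P P.card _ fun u hu q => ?_
  have hP0 : 0 < P.card := by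
    have : 0 < 2 ^ n := pow_pos (by norm_num) n
    omega
  have hPr : (0 : ℝ) < P.card := by exact_mod_cast hP0
  -- commuting the averages
  set G : (Fin (m + 4) → ℕ) → ℝ := fun k => |∑ p ∈ P, (if ∀ i, q p i ≤ k i then (1 : ℝ) else 0)
        - (P.card : ℝ) * ∏ i, (((k i : ℝ) + u i) / 2 ^ (L + 1))| with hG
  have h1 : avd (L + 1) (m + 4) G = avd (L + 1) m (fun k => av (L + 1) (fun v =>
      av3 (L + 1) (fun x y z => G (Fin.cons v (Fin.cons x (Fin.cons y (Fin.cons z k)))))) 0) := by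
    rw [avd_av]
    unfold av3
    simp only [avd_av]
    rfl
  rw [h1]
  have h2 : 1 / 2 ^ (2 * m + 95) * ((n : ℝ) * Real.sqrt n)
      = (1 / 2 ^ 94 * (1 / 2 ^ (m + 1) * ((n : ℝ) * Real.sqrt n))) / 2 ^ m := by
    rw [show 2 * m + 95 = 94 + ((m + 1) + m) by ring, pow_add, pow_add]
    field_simp
  rw [h2]
  refine avd_lower L m _ (fun k => ?_) _ fun k hk => ?_
  · refine av_nonneg _ _ fun v => av3_nonneg _ fun x y z => ?_
    rw [hG]
    exact abs_nonneg _
  · set κ : ℝ := (P.card : ℝ) * ∏ j, (((k j : ℝ) + u j.succ.succ.succ.succ) / 2 ^ (L + 1)) with hκ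
    have hprod : (1 : ℝ) / 2 ^ m ≤ ∏ j, (((k j : ℝ) + u j.succ.succ.succ.succ) / 2 ^ (L + 1)) := by
      have e1 : (1 : ℝ) / 2 ^ m = ∏ _j : Fin m, (1 / 2 : ℝ) := by
        rw [Finset.prod_const, Finset.card_univ, Fintype.card_fin, one_div_pow]
      rw [e1]
      refine Finset.prod_le_prod (fun _ _ => by norm_num) fun j _ => ?_
      have e2 : (2 : ℝ) ^ L ≤ k j := by exact_mod_cast hk j
      have e3 := (hu j.succ.succ.succ.succ).1
      rw [le_div_iff₀ (by positivity), pow_succ]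
      linarith
    have hκ0 : 0 < κ := mul_pos hPr (lt_of_lt_of_le (by positivity) hprod)
    set P' := P.filter (fun p => ∀ j : Fin m, q p j.succ.succ.succ.succ ≤ k j) with hP'
    have hP'card : P'.card ≤ 2 ^ n := le_trans (Finset.card_filter_le _ _) hP
    have key := D4_L1 P' (fun _ => 1) (fun p => q p 0) (fun p => q p 1) (fun p => q p 2)
      (fun p => q p 3) κ (u 0) (u 1) (u 2) (u 3) hκ0 n (L + 1) hn (by omega) hP'card
    have hval : ∀ v x y z : ℕ, G (Fin.cons v (Fin.cons x (Fin.cons y (Fin.cons z k))))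
        = |DD4 P' (fun _ => 1) (fun p => q p 0) (fun p => q p 1) (fun p => q p 2)
      (fun p => q p 3) (κ / 2 ^ (4 * (L + 1))) (u 0) (u 1) (u 2) (u 3) v x y z| := by
      intro v x y z
      rw [hG]
      simp only
      unfold DD4
      congr 1
      congr 1
      · rw [hP', Finset.sum_filter]
        refine Finset.sum_congr rfl fun p _ => ?_
        have hiff : (∀ i : Fin (m + 4), q p i ≤ (Fin.cons v (Fin.cons x (Fin.cons y (Fin.cons z
            k : Fin (m + 1) → ℕ) : Fin (m + 2) → ℕ) : Fin (m + 3) → ℕ) : Fin (m + 4) → ℕ) i)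
            ↔ (∀ j : Fin m, q p j.succ.succ.succ.succ ≤ k j) ∧
              (q p 0 ≤ v ∧ q p 1 ≤ x ∧ q p 2 ≤ y ∧ q p 3 ≤ z) := by
          rw [Fin.forall_fin_succ, Fin.forall_fin_succ, Fin.forall_fin_succ, Fin.forall_fin_succ]
          constructor
          · rintro ⟨h1, h2, h3, h4, h5⟩
            exact ⟨h5, h1, h2, h3, h4⟩
          · rintro ⟨h5, h1, h2, h3, h4⟩
            exact ⟨h1, h2, h3, h4, h5⟩
        simp only [hiff]
        by_cases c1 : (∀ j : Fin m, q p j.succ.succ.succ.succ ≤ k j)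
        · rw [if_pos c1]
          simp only [c1, implies_true, true_and, one_mul]
        · rw [if_neg c1]
          rw [if_neg]
          exact fun hh => c1 hh.1
      · rw [Fin.prod_univ_succ, Fin.prod_univ_succ, Fin.prod_univ_succ, Fin.prod_univ_succ, hκ]
        simp only [Fin.cons_zero, Fin.cons_succ]
        have e4 : (2 : ℝ) ^ (4 * (L + 1))
            = 2 ^ (L + 1) * 2 ^ (L + 1) * 2 ^ (L + 1) * 2 ^ (L + 1) := by
          rw [← pow_add, ← pow_add, ← pow_add]; congr 1; ring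
        rw [e4]
        have e5 : u (Fin.succ 0) = u 1 := rfl
        have e6 : u (Fin.succ (Fin.succ 0)) = u 2 := rfl
        have e7 : u (Fin.succ (Fin.succ (Fin.succ 0))) = u 3 := rfl
        rw [e5, e6, e7]
        field_simp
    simp only [hval]
    refine le_trans ?_ key
    have e8 : (1 : ℝ) / 2 ^ (m + 1) ≤ κ / 2 ^ n := by
      have f1 : (2 : ℝ) ^ n ≤ 2 * P.card := by exact_mod_cast hP2
      have f2 : (P.card : ℝ) * (1 / 2 ^ m) ≤ κ := mul_le_mul_of_nonneg_left hprod hPr.le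
      rw [le_div_iff₀ (by positivity)]
      refine le_trans ?_ f2
      have f3 : (1 : ℝ) / 2 ^ (m + 1) * 2 ^ n = 1 / 2 ^ m * (2 ^ n / 2) := by
        rw [pow_succ]; field_simp
      rw [f3, mul_comm (P.card : ℝ)]
      exact mul_le_mul_of_nonneg_left (by linarith) (by positivity)
    have e9 : 0 ≤ (n : ℝ) * Real.sqrt n := by positivity
    exact mul_le_mul_of_nonneg_left (mul_le_mul_of_nonneg_right e8 e9) (by positivity)

/-- the exponent -/
theorem exp_bounds (d : ℕ) (hd : 3 ≤ d) :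
    0 ≤ min (((d : ℝ) - 1) / 2) (3 / 2) ∧ min (((d : ℝ) - 1) / 2) (3 / 2) ≤ 3 / 2 := by
  have h1 : (3 : ℝ) ≤ d := by exact_mod_cast hd
  constructor
  · apply le_min
    · linarith
    · norm_num
  · exact min_le_right _ _

/-- lower bound for a large number of points -/
theorem disc_large (d : ℕ) (hd : 3 ≤ d) : ∃ c : ℝ, 0 < c ∧ ∀ N : ℕ, 2 ^ 2000 ≤ N →
    ∀ P : Finset (Fin d → ℝ), P.card = N →
      c * (Real.log N) ^ (min (((d : ℝ) - 1) / 2) (3 / 2))
        ≤ ∫ x in Set.Icc (0 : Fin d → ℝ) 1, absdisc P N x := by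
  -- the parameter n
  have hpar : ∀ N : ℕ, 2 ^ 2000 ≤ N → ∃ n : ℕ, 2000 ≤ n ∧ N ≤ 2 ^ n ∧ 2 ^ n ≤ 2 * N ∧
      0 ≤ Real.log N ∧ Real.log N ≤ n := by
    intro N hN
    refine ⟨Nat.clog 2 N, ?_, Nat.le_pow_clog (by norm_num) N, ?_, Real.log_natCast_nonneg N, ?_⟩
    · have := Nat.clog_mono_right 2 hN
      rwa [Nat.clog_pow 2 2000 (by norm_num)] at this
    · have h1 : 1 < N := lt_of_lt_of_le (by norm_num) hN
      have h2 := Nat.pow_pred_clog_lt_self (b := 2) (by norm_num) h1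
      have h3 : 0 < Nat.clog 2 N := Nat.clog_pos (by norm_num) (by omega)
      have h4 : 2 ^ Nat.clog 2 N = 2 * 2 ^ (Nat.clog 2 N).pred := by
        rw [← pow_succ']
        congr 1
        exact (Nat.succ_pred_eq_of_pos h3).symm
      omega
    · have h1 : N ≤ 2 ^ Nat.clog 2 N := Nat.le_pow_clog (by norm_num) N
      have h2 : (0 : ℝ) < N := by
        have : 0 < N := lt_of_lt_of_le (by norm_num) hN
        exact_mod_cast this
      have h3 : Real.log N ≤ Real.log ((2 : ℝ) ^ Nat.clog 2 N) := by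
        apply Real.log_le_log h2
        exact_mod_cast h1
      rw [Real.log_pow] at h3
      have h4 : Real.log 2 ≤ 1 := by
        have := Real.log_two_lt_d9
        linarith
      have h5 : (0 : ℝ) ≤ Nat.clog 2 N := by positivity
      nlinarith
  rcases Nat.lt_or_ge d 4 with hd4 | hd4
  · have hd3 : d = 3 := by omega
    subst hd3
    refine ⟨1 / 2 ^ 68, by positivity, fun N hN P hPN => ?_⟩
    obtain ⟨n, hn1, hn2, hn3, hlog0, hlog⟩ := hpar N hN
    have h1 := disc_three (n + 2) (by omega) P (by rw [hPN, pow_add]; omega)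
      (by rw [hPN, pow_add]; omega)
    rw [hPN] at h1
    refine le_trans ?_ h1
    have h2 : min ((((3 : ℕ) : ℝ) - 1) / 2) (3 / 2) = 1 := by norm_num
    rw [h2, Real.rpow_one]
    push_cast
    have h3 : (0 : ℝ) < 2 ^ 68 := by positivity
    rw [div_mul_eq_mul_div, one_mul]
    apply div_le_div_of_nonneg_right _ h3.le
    linarith
  · obtain ⟨m, rfl⟩ : ∃ m, d = m + 4 := ⟨d - 4, by omega⟩
    refine ⟨1 / 2 ^ (2 * m + 95), by positivity, fun N hN P hPN => ?_⟩
    obtain ⟨n, hn1, hn2, hn3, hlog0, hlog⟩ := hpar N hN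
    have h1 := disc_four m n hn1 P (by rw [hPN]; exact hn2) (by rw [hPN]; exact hn3)
    rw [hPN] at h1
    refine le_trans ?_ h1
    refine mul_le_mul_of_nonneg_left ?_ (by positivity)
    have h2 : min ((((m + 4 : ℕ) : ℝ) - 1) / 2) (3 / 2) = 3 / 2 := by
      apply min_eq_right
      push_cast
      have : (0 : ℝ) ≤ m := by positivity
      linarith
    rw [h2]
    have hn0 : (0 : ℝ) < n := by
      have : 0 < n := by omega
      exact_mod_cast this
    have h3 : (n : ℝ) * Real.sqrt n = (n : ℝ) ^ ((3 : ℝ) / 2) := by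
      rw [Real.sqrt_eq_rpow]
      have e1 : (3 : ℝ) / 2 = 1 + 1 / 2 := by norm_num
      rw [e1, Real.rpow_add hn0, Real.rpow_one]
    rw [h3]
    exact Real.rpow_le_rpow hlog0 hlog (by norm_num)

/-- **Main theorem.**  For every `d ≥ 3` there is `c > 0` such that the `L^1` norm of the
discrepancy function of every set of `N ≥ 2` points is at least `c (log N)^(min((d-1)/2, 3/2))`. -/
theorem main_lower (d : ℕ) (hd : 3 ≤ d) : ∃ c : ℝ, 0 < c ∧ ∀ N : ℕ, 2 ≤ N →
    ∀ P : Finset (Fin d → ℝ), P.card = N →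
      c * (Real.log N) ^ (min (((d : ℝ) - 1) / 2) (3 / 2))
        ≤ ∫ x in Set.Icc (0 : Fin d → ℝ) 1, absdisc P N x := by
  obtain ⟨c1, hc1, h1⟩ := disc_large d hd
  obtain ⟨c2, hc2, h2⟩ := small_N d (by omega) (2 ^ 2000)
  obtain ⟨he0, he1⟩ := exp_bounds d hd
  set E := min (((d : ℝ) - 1) / 2) (3 / 2) with hE
  refine ⟨min c1 (c2 / 2000 ^ 2), lt_min hc1 (by positivity), fun N hN P hPN => ?_⟩
  have hlog0 : 0 ≤ Real.log N := Real.log_natCast_nonneg N
  have hpow0 : 0 ≤ (Real.log N) ^ E := Real.rpow_nonneg hlog0 _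
  rcases Nat.lt_or_ge N (2 ^ 2000) with hN2 | hN2
  · have h3 := h2 N (by omega) hN2.le P hPN
    have h4 : Real.log N ≤ 2000 := by
      have hNpos : (0 : ℝ) < N := by
        have : 0 < N := by omega
        exact_mod_cast this
      have e1 : Real.log N ≤ Real.log ((2 : ℝ) ^ 2000) := by
        apply Real.log_le_log hNpos
        exact_mod_cast hN2.le
      rw [Real.log_pow] at e1
      have e2 : Real.log 2 ≤ 1 := by
        have := Real.log_two_lt_d9
        linarith
      push_cast at e1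
      linarith
    have h5 : (Real.log N) ^ E ≤ 2000 ^ 2 := by
      refine le_trans (Real.rpow_le_rpow hlog0 h4 he0) ?_
      rw [← Real.rpow_natCast (2000 : ℝ) 2]
      apply Real.rpow_le_rpow_of_exponent_le (by norm_num)
      push_cast
      linarith
    have h6 : min c1 (c2 / 2000 ^ 2) * (Real.log N) ^ E ≤ c2 / 2000 ^ 2 * 2000 ^ 2 := by
      refine mul_le_mul (min_le_right _ _) h5 hpow0 (by positivity)
    have h7 : c2 / 2000 ^ 2 * 2000 ^ 2 = c2 := by field_simp
    linarith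
  · have h3 := h1 N hN2 P hPN
    have h4 := mul_le_mul_of_nonneg_right (min_le_left c1 (c2 / 2000 ^ 2)) hpow0
    linarith

end Pool.Agent.Helper93.LD
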