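import Pool.Agent.Helper93.LD.Energy

/-!
# Weighted discrepancy functions in three variables, good cells
-/

set_option autoImplicit false

namespace Pool.Agent.Helper93.LD

open Finset Complex

/-- a weighted counting function minus a multiple of the volume -/
noncomputable def DD {ι : Type*} (P : Finset ι) (w : ι → ℝ) (qx qy qz : ι → ℕ)
    (K u1 u2 u3 : ℝ) (x y z : ℕ) : ℝ :=
  ∑ i ∈ P, w i * (if qx i ≤ x ∧ qy i ≤ y ∧ qz i ≤ z then 1 else 0)
    - K * (((x : ℝ) + u1) * ((y : ℝ) + u2) * ((z : ℝ) + u3))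

theorem mem_block_iff (c k t : ℕ) : t * 2 ^ k ≤ c ∧ c < (t + 1) * 2 ^ k ↔ c / 2 ^ k = t := by
  have hp : 0 < 2 ^ k := pow_pos (by norm_num) k
  rw [Nat.div_eq_iff hp]
  constructor
  · rintro ⟨h1, h2⟩
    constructor
    · linarith
    · have : (t + 1) * 2 ^ k = t * 2 ^ k + 2 ^ k := by ring
      omega
  · rintro ⟨h1, h2⟩
    have : (t + 1) * 2 ^ k = t * 2 ^ k + 2 ^ k := by ring
    constructor
    · linarith
    · omega

theorem av_ind (k c T : ℕ) :
    av k (fun t => if c = t then (1 : ℝ) else 0) T = if c / 2 ^ k = T then (1 / 2) ^ k else 0 := by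
  induction k generalizing T with
  | zero => simp [av]
  | succ k ih =>
    rw [av_succ, ih, ih]
    have h1 : c / 2 ^ (k + 1) = c / 2 ^ k / 2 := by
      rw [pow_succ, Nat.div_div_eq_div_mul]
    rw [h1]
    set m := c / 2 ^ k with hm
    rw [smul_eq_mul]
    by_cases h2 : m = 2 * T
    · have h3 : ¬ m = 2 * T + 1 := by omega
      have h4 : m / 2 = T := by omega
      rw [if_pos h2, if_neg h3, if_pos h4, pow_succ]
      ring
    · by_cases h3 : m = 2 * T + 1
      · have h4 : m / 2 = T := by omega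
        rw [if_neg h2, if_pos h3, if_pos h4, pow_succ]
        ring
      · have h4 : ¬ m / 2 = T := by omega
        rw [if_neg h2, if_neg h3, if_neg h4]
        ring

theorem av_ind_le (k c : ℕ) :
    av k (fun t => if c = t then (1 : ℝ) else 0) 0 ≤ (1 / 2) ^ k := by
  rw [av_ind]
  split_ifs
  · exact le_refl _
  · positivity

open Classical in
/-- indicator of the cells without points -/
noncomputable def gd {ι : Type*} (P : Finset ι) (qx qy qz : ι → ℕ) (L s l : ℕ)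
    (t a tx ty : ℕ) : ℝ :=
  if ∃ i ∈ P, qx i / 2 ^ (L - 1 - a + 1) = tx ∧ qy i / 2 ^ (L - 1 - (l - a) + 1) = ty ∧
    qz i / 2 ^ (s + 1) = t then 0 else 1

theorem gd_nonneg {ι : Type*} (P : Finset ι) (qx qy qz : ι → ℕ) (L s l t a tx ty : ℕ) :
    0 ≤ gd P qx qy qz L s l t a tx ty := by
  unfold gd; split_ifs <;> norm_num

theorem gd_le_one {ι : Type*} (P : Finset ι) (qx qy qz : ι → ℕ) (L s l t a tx ty : ℕ) :
    gd P qx qy qz L s l t a tx ty ≤ 1 := by
  unfold gd; split_ifs <;> norm_num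

theorem gd_ge {ι : Type*} (P : Finset ι) (qx qy qz : ι → ℕ) (L s l t a tx ty : ℕ) :
    1 - ∑ i ∈ P, (if qx i / 2 ^ (L - 1 - a + 1) = tx then (1 : ℝ) else 0) *
      ((if qy i / 2 ^ (L - 1 - (l - a) + 1) = ty then (1 : ℝ) else 0) *
        (if qz i / 2 ^ (s + 1) = t then (1 : ℝ) else 0))
      ≤ gd P qx qy qz L s l t a tx ty := by
  unfold gd
  have h0 : ∀ i ∈ P, 0 ≤ (if qx i / 2 ^ (L - 1 - a + 1) = tx then (1 : ℝ) else 0) *
      ((if qy i / 2 ^ (L - 1 - (l - a) + 1) = ty then (1 : ℝ) else 0) *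
        (if qz i / 2 ^ (s + 1) = t then (1 : ℝ) else 0)) := by
    intro i _
    positivity
  split_ifs with h
  · obtain ⟨i, hi, h1, h2, h3⟩ := h
    have := Finset.single_le_sum h0 hi
    rw [if_pos h1, if_pos h2, if_pos h3] at this
    linarith
  · have := Finset.sum_nonneg h0
    linarith

/-- good cells have total mass at least `1 - #P 2^(-n)` for each shape -/
theorem gd_mass {ι : Type*} (P : Finset ι) (qx qy qz : ι → ℕ) (L s l j : ℕ) :
    (l + 1) * (1 - (P.card : ℝ) * ((1 / 2) ^ l * (1 / 2) ^ j))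
      ≤ av j (fun t => shp l (gd P qx qy qz L s l t)) 0 := by
  have hswap : av j (fun t => shp l (gd P qx qy qz L s l t)) 0
      = ∑ a ∈ range (l + 1), av a (fun tx => av (l - a) (fun ty =>
          av j (fun t => gd P qx qy qz L s l t a tx ty) 0) 0) 0 := by
    rw [← shp_av]
    rfl
  rw [hswap]
  have h1 : ∀ a ∈ range (l + 1), 1 - (P.card : ℝ) * ((1 / 2) ^ l * (1 / 2) ^ j)
      ≤ av a (fun tx => av (l - a) (fun ty =>
          av j (fun t => gd P qx qy qz L s l t a tx ty) 0) 0) 0 := by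
    intro a ha
    have ha' : a ≤ l := by simpa [Nat.lt_succ_iff] using ha
    have h2 : av a (fun tx => av (l - a) (fun ty => av j (fun t =>
        1 - ∑ i ∈ P, (if qx i / 2 ^ (L - 1 - a + 1) = tx then (1 : ℝ) else 0) *
      ((if qy i / 2 ^ (L - 1 - (l - a) + 1) = ty then (1 : ℝ) else 0) *
        (if qz i / 2 ^ (s + 1) = t then (1 : ℝ) else 0))) 0) 0) 0
        ≤ av a (fun tx => av (l - a) (fun ty =>
          av j (fun t => gd P qx qy qz L s l t a tx ty) 0) 0) 0 :=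
      av_mono' _ _ fun tx => av_mono' _ _ fun ty => av_mono' _ _ fun t =>
        gd_ge P qx qy qz L s l t a tx ty
    refine le_trans ?_ h2
    have h3 : av a (fun tx => av (l - a) (fun ty => av j (fun t =>
        1 - ∑ i ∈ P, (if qx i / 2 ^ (L - 1 - a + 1) = tx then (1 : ℝ) else 0) *
      ((if qy i / 2 ^ (L - 1 - (l - a) + 1) = ty then (1 : ℝ) else 0) *
        (if qz i / 2 ^ (s + 1) = t then (1 : ℝ) else 0))) 0) 0) 0
        = 1 - ∑ i ∈ P,
          av a (fun tx => (if qx i / 2 ^ (L - 1 - a + 1) = tx then (1 : ℝ) else 0)) 0 *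
          (av (l - a) (fun ty => (if qy i / 2 ^ (L - 1 - (l - a) + 1) = ty then (1 : ℝ) else 0)) 0
          * av j (fun t => (if qz i / 2 ^ (s + 1) = t then (1 : ℝ) else 0)) 0) := by
      have e1 : ∀ (k : ℕ) (f : ℕ → ℝ) (c : ℝ), av k (fun t => f t * c) 0 = av k f 0 * c := by
        intro k f c
        have : (fun t => f t * c) = fun t => c * f t := by ext t; ring
        rw [this, av_mul_left, mul_comm]
      have e2 : ∀ (k : ℕ) (F : ι → ℕ → ℝ), av k (fun t => 1 - ∑ i ∈ P, F i t) 0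
          = 1 - ∑ i ∈ P, av k (F i) 0 := by
        intro k F
        rw [av_sub k (fun _ => (1 : ℝ)), av_const, av_sum]
      simp only [e2, av_mul_left, e1]
    rw [h3]
    have h4 : ∑ i ∈ P,
          av a (fun tx => (if qx i / 2 ^ (L - 1 - a + 1) = tx then (1 : ℝ) else 0)) 0 *
          (av (l - a) (fun ty => (if qy i / 2 ^ (L - 1 - (l - a) + 1) = ty then (1 : ℝ) else 0)) 0
          * av j (fun t => (if qz i / 2 ^ (s + 1) = t then (1 : ℝ) else 0)) 0)
        ≤ ∑ _i ∈ P, ((1 / 2 : ℝ) ^ l * (1 / 2) ^ j) := by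
      refine Finset.sum_le_sum fun i _ => ?_
      have f1 := av_ind_le a (qx i / 2 ^ (L - 1 - a + 1))
      have f2 := av_ind_le (l - a) (qy i / 2 ^ (L - 1 - (l - a) + 1))
      have f3 := av_ind_le j (qz i / 2 ^ (s + 1))
      have g1 : 0 ≤ av a (fun tx => (if qx i / 2 ^ (L - 1 - a + 1) = tx then (1 : ℝ) else 0)) 0 :=
        av_nonneg _ _ fun t => by positivity
      have g2 : 0 ≤ av (l - a)
          (fun ty => (if qy i / 2 ^ (L - 1 - (l - a) + 1) = ty then (1 : ℝ) else 0)) 0 :=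
        av_nonneg _ _ fun t => by positivity
      have g3 : 0 ≤ av j (fun t => (if qz i / 2 ^ (s + 1) = t then (1 : ℝ) else 0)) 0 :=
        av_nonneg _ _ fun t => by positivity
      have e3 : (1 / 2 : ℝ) ^ l = (1 / 2) ^ a * (1 / 2) ^ (l - a) := by
        rw [← pow_add]; congr 1; omega
      rw [e3, mul_assoc]
      exact mul_le_mul f1 (mul_le_mul f2 f3 g3 (by positivity)) (mul_nonneg g2 g3) (by positivity)
    rw [Finset.sum_const, nsmul_eq_mul] at h4
    linarith
  have h5 := Finset.sum_le_sum h1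
  rw [Finset.sum_const, Finset.card_range, nsmul_eq_mul] at h5
  push_cast at h5
  exact h5

/-- the structure of `h = exp (i λ D)` on the good cells -/
theorem good_structure {ι : Type*} (P : Finset ι) (w : ι → ℝ) (qx qy qz : ι → ℕ)
    (κ lam u1 u2 u3 ρ : ℝ) (n r l : ℕ) (hln : l ≤ n) (hρ : ρ * 2 ^ n = lam * κ)
    (t z z' : ℕ) (hz1 : 2 * t * 2 ^ (r + l) ≤ z) (hz2 : z < (2 * t + 1) * 2 ^ (r + l))
    (hz1' : (2 * t + 1) * 2 ^ (r + l) ≤ z') (hz2' : z' < (2 * t + 1 + 1) * 2 ^ (r + l))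
    (a : ℕ) (ha : a ≤ l) (tx ty : ℕ)
    (hg : gd P qx qy qz (r + n + 1) (r + l) l t a tx ty ≠ 0) :
    ∃ u v : ℕ → ℂ, (∀ x, ‖u x‖ = 1) ∧ (∀ y, ‖v y‖ = 1) ∧
      ∀ x, tx * 2 ^ (r + n + 1 - 1 - a + 1) ≤ x → x < (tx + 1) * 2 ^ (r + n + 1 - 1 - a + 1) →
      ∀ y, ty * 2 ^ (r + n + 1 - 1 - (l - a) + 1) ≤ y →
        y < (ty + 1) * 2 ^ (r + n + 1 - 1 - (l - a) + 1) →
      exp (I * ((lam * DD P w qx qy qz (κ / 2 ^ (3 * (r + n + 1))) u1 u2 u3 x y z : ℝ) : ℂ)) *
        (starRingEnd ℂ) (exp (I * ((lam *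
          DD P w qx qy qz (κ / 2 ^ (3 * (r + n + 1))) u1 u2 u3 x y z' : ℝ) : ℂ)))
      = u x * v y * exp (I * ((
        ρ * (((z' : ℝ) - z) / 2 ^ (r + l + 1))
        / (2 ^ (r + n + 1 - 1 - a + 1) * 2 ^ (r + n + 1 - 1 - (l - a) + 1)) *
        ((x : ℝ) - (tx * 2 ^ (r + n + 1 - 1 - a + 1) : ℕ)) *
        ((y : ℝ) - (ty * 2 ^ (r + n + 1 - 1 - (l - a) + 1) : ℕ)) : ℝ) : ℂ)) := by
  classical
  set A := r + n + 1 - 1 - a + 1 with hA
  set B := r + n + 1 - 1 - (l - a) + 1 with hB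
  set K := κ / 2 ^ (3 * (r + n + 1)) with hK
  have hno : ∀ i ∈ P, ¬ (qx i / 2 ^ A = tx ∧ qy i / 2 ^ B = ty ∧ qz i / 2 ^ (r + l + 1) = t) := by
    intro i hi hc
    apply hg
    unfold gd
    rw [if_pos ⟨i, hi, hc⟩]
  set x0 := tx * 2 ^ A with hx0
  set y0 := ty * 2 ^ B with hy0
  have hzz : z < z' := lt_of_lt_of_le hz2 hz1'
  -- the functions
  set α : ℕ → ℝ := fun x => ∑ i ∈ P, w i *
    (if (z < qz i ∧ qz i ≤ z') ∧ qy i ≤ y0 ∧ qx i ≤ x then 1 else 0) with hα
  set β : ℕ → ℝ := fun y => ∑ i ∈ P, w i *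
    (if (z < qz i ∧ qz i ≤ z') ∧ y0 < qy i ∧ qx i ≤ x0 ∧ qy i ≤ y then 1 else 0) with hβ
  refine ⟨fun x => exp (I * ((lam * (- α x + K * (z' - z) * ((y0 + u2) * (x - x0)
      + (x0 + u1) * (y0 + u2))) : ℝ) : ℂ)),
    fun y => exp (I * ((lam * (- β y + K * (z' - z) * ((x0 + u1) * (y - y0))) : ℝ) : ℂ)),
    fun x => norm_exp_I _, fun y => norm_exp_I _, ?_⟩
  intro x hx1 hx2 y hy1 hy2
  have hcount : (∑ i ∈ P, w i * (if qx i ≤ x ∧ qy i ≤ y ∧ qz i ≤ z then 1 else 0) : ℝ)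
      - ∑ i ∈ P, w i * (if qx i ≤ x ∧ qy i ≤ y ∧ qz i ≤ z' then 1 else 0)
      = - α x - β y := by
    have e1 : - α x - β y = -(α x + β y) := by ring
    rw [e1, hα, hβ]
    simp only
    rw [← Finset.sum_add_distrib, ← Finset.sum_sub_distrib, ← Finset.sum_neg_distrib]
    refine Finset.sum_congr rfl fun i hi => ?_
    have hni := hno i hi
    have key : (if qx i ≤ x ∧ qy i ≤ y ∧ qz i ≤ z then (1 : ℝ) else 0)
        - (if qx i ≤ x ∧ qy i ≤ y ∧ qz i ≤ z' then 1 else 0)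
        = -((if (z < qz i ∧ qz i ≤ z') ∧ qy i ≤ y0 ∧ qx i ≤ x then 1 else 0)
          + (if (z < qz i ∧ qz i ≤ z') ∧ y0 < qy i ∧ qx i ≤ x0 ∧ qy i ≤ y then 1 else 0)) := by
      by_cases c1 : z < qz i ∧ qz i ≤ z'
      · obtain ⟨c1a, c1b⟩ := c1
        have d1 : ¬ qz i ≤ z := by omega
        have hzb : qz i / 2 ^ (r + l + 1) = t := by
          rw [← mem_block_iff]
          have p1 : 2 ^ (r + l + 1) = 2 * 2 ^ (r + l) := by rw [pow_succ]; ring
          rw [p1]
          constructor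
          · calc t * (2 * 2 ^ (r + l)) = 2 * t * 2 ^ (r + l) := by ring
              _ ≤ z := hz1
              _ ≤ qz i := c1a.le
          · calc qz i ≤ z' := c1b
              _ < (2 * t + 1 + 1) * 2 ^ (r + l) := hz2'
              _ = (t + 1) * (2 * 2 ^ (r + l)) := by ring
        by_cases c2 : qy i ≤ y0
        · have d2 : qy i ≤ y := le_trans c2 hy1
          have d3 : ¬ y0 < qy i := by omega
          simp only [c1a, c1b, c2, d1, d2, d3, and_true, and_false, true_and, false_and, if_false]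
          ring
        · have d3 : y0 < qy i := by omega
          by_cases c3 : qx i ≤ x0
          · have d4 : qx i ≤ x := le_trans c3 hx1
            simp only [c1a, c1b, c2, d1, d3, c3, d4, and_true, and_false, true_and, if_false]
            ring
          · have d5 : ¬ (qx i ≤ x ∧ qy i ≤ y) := by
              rintro ⟨f1, f2⟩
              apply hni
              refine ⟨?_, ?_, hzb⟩
              · rw [← mem_block_iff]
                exact ⟨by omega, lt_of_le_of_lt f1 hx2⟩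
              · rw [← mem_block_iff]
                exact ⟨by omega, lt_of_le_of_lt f2 hy2⟩
            simp only [c1a, c1b, c2, d1, d3, c3, d5, and_true, and_false, false_and, if_false]
            ring
      · have d1 : ¬ ((z < qz i ∧ qz i ≤ z') ∧ qy i ≤ y0 ∧ qx i ≤ x) := fun hh => c1 hh.1
        have d2 : ¬ ((z < qz i ∧ qz i ≤ z') ∧ y0 < qy i ∧ qx i ≤ x0 ∧ qy i ≤ y) :=
          fun hh => c1 hh.1
        rw [if_neg d1, if_neg d2]
        by_cases c2 : qz i ≤ z
        · have c3 : qz i ≤ z' := by omega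
          simp only [c2, c3, and_true]
          ring
        · have c3 : ¬ qz i ≤ z' := by
            intro hh
            exact c1 ⟨by omega, hh⟩
          simp only [c2, c3, and_false, if_false]
          ring
    have key2 : w i * (if qx i ≤ x ∧ qy i ≤ y ∧ qz i ≤ z then (1 : ℝ) else 0)
        - w i * (if qx i ≤ x ∧ qy i ≤ y ∧ qz i ≤ z' then 1 else 0)
        = w i * ((if qx i ≤ x ∧ qy i ≤ y ∧ qz i ≤ z then (1 : ℝ) else 0)
        - (if qx i ≤ x ∧ qy i ≤ y ∧ qz i ≤ z' then 1 else 0)) := by ring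
    rw [key2, key]
    ring
  -- the phase constant
  have hconst : ρ * (((z' : ℝ) - z) / 2 ^ (r + l + 1)) / (2 ^ A * 2 ^ B)
      = lam * K * (z' - z) := by
    have e1 : (2 : ℝ) ^ (r + l + 1) * (2 ^ A * 2 ^ B) = 2 ^ (3 * (r + n + 1)) / 2 ^ n := by
      rw [← pow_add, ← pow_add, eq_div_iff (by positivity), ← pow_add]
      congr 1
      omega
    have hK' : K * 2 ^ (3 * (r + n + 1)) = κ := by
      rw [hK]; exact div_mul_cancel₀ _ (by positivity)
    rw [mul_div_assoc', div_div, e1]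
    rw [div_eq_iff (by positivity)]
    have e2 : lam * K * (z' - z) * (2 ^ (3 * (r + n + 1)) / 2 ^ n)
        = lam * (K * 2 ^ (3 * (r + n + 1))) * (z' - z) / 2 ^ n := by ring
    rw [e2, hK', eq_div_iff (by positivity)]
    have e3 : ρ * ((z' : ℝ) - z) * 2 ^ n = (ρ * 2 ^ n) * (z' - z) := by ring
    rw [e3, hρ]
  rw [hconst, ← Complex.exp_conj]
  have hc : (starRingEnd ℂ) (I * ((lam * DD P w qx qy qz K u1 u2 u3 x y z' : ℝ) : ℂ))
      = - (I * ((lam * DD P w qx qy qz K u1 u2 u3 x y z' : ℝ) : ℂ)) := by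
    rw [map_mul, Complex.conj_I, Complex.conj_ofReal]
    ring
  rw [hc, ← Complex.exp_add, ← Complex.exp_add, ← Complex.exp_add]
  congr 1
  rw [← sub_eq_add_neg, ← mul_sub, ← mul_add, ← mul_add]
  congr 1
  rw [← Complex.ofReal_sub, ← Complex.ofReal_add, ← Complex.ofReal_add]
  congr 1
  have hD : DD P w qx qy qz K u1 u2 u3 x y z - DD P w qx qy qz K u1 u2 u3 x y z'
      = (- α x - β y) + K * ((x + u1) * (y + u2)) * (z' - z) := by
    rw [← hcount]
    unfold DD
    ring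
  rw [← mul_sub, hD]
  ring

end Pool.Agent.Helper93.LD
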