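import Pool.Agent.Helper93.LD.Shapes

/-!
# The level inequality
-/

set_option autoImplicit false

namespace Pool.Agent.Helper93.LD

open Finset Complex

theorem qh_av (sx tx sy ty s t : ℕ) (F : ℕ → ℕ → ℕ → ℂ) :
    qh sx tx sy ty (fun x y => av s (fun z => F x y z) t)
      = av s (fun z => qh sx tx sy ty (fun x y => F x y z)) t := by
  unfold qh
  have h1 : ∀ y, hr sx (fun x => av s (fun z => F x y z) t) tx
      = av s (fun z => hr sx (fun x => F x y z) tx) t := fun y =>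
    hr_av_comm sx s (fun x z => F x y z) tx t
  simp only [h1]
  exact hr_av_comm sy s (fun y z => hr sx (fun x => F x y z) tx) ty t

/-- the imaginary part as a complex number, as a real linear map -/
noncomputable def imC : ℂ →ₗ[ℝ] ℂ where
  toFun z := ((z.im : ℝ) : ℂ)
  map_add' z w := by rw [Complex.add_im]; push_cast; ring
  map_smul' c z := by
    rw [Complex.real_smul, Complex.mul_im]
    simp

theorem imC_apply (z : ℂ) : imC z = ((z.im : ℝ) : ℂ) := rfl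

theorem qh_imC (sx tx sy ty : ℕ) (φ : ℕ → ℕ → ℂ) :
    qh sx tx sy ty (fun x y => (((φ x y).im : ℝ) : ℂ)) = (((qh sx tx sy ty φ).im : ℝ) : ℂ) := by
  unfold qh
  rw [← imC_apply (hr sy (fun y => hr sx (fun x => φ x y) tx) ty), hr_map]
  congr 1
  ext y
  rw [hr_map]
  rfl

theorem im_av (s t : ℕ) (φ : ℕ → ℂ) : (av s φ t).im = av s (fun i => (φ i).im) t := by
  have := av_map Complex.imLm s φ t
  exact this

theorem conj_av (s t : ℕ) (φ : ℕ → ℂ) :
    (starRingEnd ℂ) (av s φ t) = av s (fun i => (starRingEnd ℂ) (φ i)) t := by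
  have := av_map (Complex.conjAe.toLinearMap) s φ t
  exact this

/-- step (1): testing against the good cells -/
theorem test_good (L l : ℕ) (hl : l < L) (v : ℕ → ℕ → ℂ) (g : ℕ → ℕ → ℕ → ℝ)
    (hg0 : ∀ a tx ty, 0 ≤ g a tx ty) (hg1 : ∀ a tx ty, g a tx ty ≤ 1) (μ : ℝ) (hμ : 0 < μ) :
    2 * μ * shp l (fun a tx ty => g a tx ty * (qh (L - 1 - a) tx (L - 1 - (l - a)) ty v).im)
      - μ ^ 2 * (l + 1) ≤ av2 L (fun x y => (v x y).im ^ 2) := by
  have h1 := bessel_two L l hl (fun x y => (((v x y).im : ℝ) : ℂ))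
  have h2 : av L (fun x => av L (fun y => ‖(((v x y).im : ℝ) : ℂ)‖ ^ 2) 0) 0
      = av2 L (fun x y => (v x y).im ^ 2) := by
    rw [av2_comm]
    congr 1
    ext x
    congr 1
    ext y
    rw [Complex.norm_real, Real.norm_eq_abs, sq_abs]
  rw [h2] at h1
  refine le_trans ?_ h1
  have h3 : ∑ a ∈ range (l + 1), av a (fun tx => av (l - a) (fun ty =>
        ‖hr (L - 1 - (l - a)) (fun y => hr (L - 1 - a)
          (fun x => (((v x y).im : ℝ) : ℂ)) tx) ty‖ ^ 2) 0) 0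
      = shp l (fun a tx ty => (qh (L - 1 - a) tx (L - 1 - (l - a)) ty v).im ^ 2) := by
    unfold shp
    refine Finset.sum_congr rfl fun a _ => ?_
    congr 1
    ext tx
    congr 1
    ext ty
    have := qh_imC (L - 1 - a) tx (L - 1 - (l - a)) ty v
    unfold qh at this ⊢
    rw [this, Complex.norm_real, Real.norm_eq_abs, sq_abs]
  rw [h3, ← shp_mul]
  have h4 : μ ^ 2 * ((l : ℝ) + 1) = shp l (fun _ _ _ => μ ^ 2) := by
    rw [shp_const]; ring
  rw [h4, ← shp_sub]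
  refine shp_mono l fun a _ tx ty => ?_
  set q := (qh (L - 1 - a) tx (L - 1 - (l - a)) ty v).im
  have a1 := hg0 a tx ty
  have a2 := hg1 a tx ty
  nlinarith [sq_nonneg (q - μ * g a tx ty), mul_nonneg (mul_nonneg hμ.le hμ.le)
    (mul_nonneg a1 (sub_nonneg.2 a2)), mul_nonneg (mul_nonneg hμ.le hμ.le) (sub_nonneg.2 a2)]

/-- the product of two neighbouring averages -/
noncomputable def vv (s t : ℕ) (h : ℕ → ℕ → ℕ → ℂ) (x y : ℕ) : ℂ :=
  av s (h x y) (2 * t) * (starRingEnd ℂ) (av s (h x y) (2 * t + 1))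

theorem vv_eq (s t : ℕ) (h : ℕ → ℕ → ℕ → ℂ) (x y : ℕ) :
    vv s t h x y = av s (fun z => av s (fun z' => h x y z * (starRingEnd ℂ) (h x y z'))
      (2 * t + 1)) (2 * t) := by
  unfold vv
  have h1 : ∀ z, av s (fun z' => h x y z * (starRingEnd ℂ) (h x y z')) (2 * t + 1)
      = (starRingEnd ℂ) (av s (h x y) (2 * t + 1)) * h x y z := by
    intro z
    rw [av_mul_left_c, ← conj_av, mul_comm]
  simp only [h1]
  rw [av_mul_left_c, mul_comm]

theorem im_vv_sq_le (s t : ℕ) (h : ℕ → ℕ → ℕ → ℂ) (hh : ∀ x y z, ‖h x y z‖ ≤ 1) (x y : ℕ) :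
    (vv s t h x y).im ^ 2 ≤ 4 * ‖hr s (h x y) t‖ ^ 2 := by
  unfold vv
  set A := av s (h x y) (2 * t) with hA
  set B := av s (h x y) (2 * t + 1) with hB
  have h1 : (A * (starRingEnd ℂ) B).im = ((A - B) * (starRingEnd ℂ) B).im := by
    simp only [Complex.mul_im, Complex.conj_re, Complex.conj_im, Complex.sub_re, Complex.sub_im]
    ring
  have h2 : ‖B‖ ≤ 1 := by
    refine le_trans (norm_av_le _ _ _) ?_
    exact av_le_const _ _ _ fun i _ _ => hh x y i
  have h3 : hr s (h x y) t = (1 / 2 : ℝ) • (B - A) := rfl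
  have h4 : ‖hr s (h x y) t‖ = (1 / 2) * ‖A - B‖ := by
    rw [h3, norm_smul, norm_sub_rev]
    norm_num
  have h5 : |(A * (starRingEnd ℂ) B).im| ≤ ‖A - B‖ := by
    rw [h1]
    refine le_trans (Complex.abs_im_le_norm _) ?_
    rw [norm_mul, Complex.norm_conj]
    nlinarith [norm_nonneg (A - B)]
  rw [h4, ← sq_abs]
  have h6 : 4 * ((1 / 2) * ‖A - B‖) ^ 2 = ‖A - B‖ ^ 2 := by ring
  rw [h6]
  exact pow_le_pow_left₀ (abs_nonneg _) h5 2

/-- second moment of `h(z) conj h(z') - 1` -/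
theorem moment_two (s t : ℕ) (φ : ℕ → ℂ) (hφ : ∀ z, ‖φ z‖ = 1) :
    av s (fun z => av s (fun z' => ‖φ z * (starRingEnd ℂ) (φ z') - 1‖ ^ 2) (2 * t + 1)) (2 * t)
      = 2 - (‖av s φ (2 * t)‖ ^ 2 + ‖av s φ (2 * t + 1)‖ ^ 2) + 4 * ‖hr s φ t‖ ^ 2 := by
  have h1 : ∀ z z', ‖φ z * (starRingEnd ℂ) (φ z') - 1‖ ^ 2
      = 2 - 2 * (φ z * (starRingEnd ℂ) (φ z')).re := by
    intro z z'
    have e1 : ‖φ z * (starRingEnd ℂ) (φ z')‖ ^ 2 = 1 := by
      rw [norm_mul, Complex.norm_conj, hφ, hφ]; norm_num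
    rw [← Complex.normSq_eq_norm_sq, Complex.normSq_apply] at e1 ⊢
    simp only [Complex.sub_re, Complex.sub_im, Complex.one_re, Complex.one_im]
    nlinarith
  simp only [h1]
  have h2 : ∀ (c : ℝ) (ψ : ℕ → ℝ) (u : ℕ), av s (fun z => c - 2 * ψ z) u = c - 2 * av s ψ u := by
    intro c ψ u
    rw [av_sub s (fun _ => c) (fun z => 2 * ψ z), av_const, av_mul_left]
  simp only [h2]
  have h3 : av s (fun z => av s (fun z' => (φ z * (starRingEnd ℂ) (φ z')).re) (2 * t + 1)) (2 * t)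
      = (av s φ (2 * t) * (starRingEnd ℂ) (av s φ (2 * t + 1))).re := by
    have e1 : ∀ z, av s (fun z' => (φ z * (starRingEnd ℂ) (φ z')).re) (2 * t + 1)
        = (av s (fun z' => φ z * (starRingEnd ℂ) (φ z')) (2 * t + 1)).re := by
      intro z
      exact (av_map Complex.reLm s (fun z' => φ z * (starRingEnd ℂ) (φ z')) (2 * t + 1)).symm
    simp only [e1]
    have e2 := av_map Complex.reLm s
      (fun z => av s (fun z' => φ z * (starRingEnd ℂ) (φ z')) (2 * t + 1)) (2 * t)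
    have e3 := vv_eq s t (fun _ _ => φ) 0 0
    unfold vv at e3
    rw [e3]
    exact e2.symm
  rw [h3]
  set A := av s φ (2 * t) with hA
  set B := av s φ (2 * t + 1) with hB
  have h4 : hr s φ t = (1 / 2 : ℝ) • (B - A) := rfl
  have h5 : 4 * ‖hr s φ t‖ ^ 2 = ‖B - A‖ ^ 2 := by
    rw [h4, norm_smul]
    norm_num
    ring
  rw [h5, ← Complex.normSq_eq_norm_sq, ← Complex.normSq_eq_norm_sq, ← Complex.normSq_eq_norm_sq]
  simp only [Complex.normSq_apply, Complex.mul_re, Complex.conj_re, Complex.conj_im,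
    Complex.sub_re, Complex.sub_im]
  ring

/-- the average of a linear function over two neighbouring blocks -/
theorem av_idR (s t : ℕ) : av s (fun i => (i : ℝ)) t = t * 2 ^ s + (2 ^ s - 1) / 2 := by
  induction s generalizing t with
  | zero => simp [av]
  | succ s ih =>
    rw [av_succ, ih, ih, smul_eq_mul]
    push_cast
    rw [pow_succ]
    ring

theorem av_av_diff (s t : ℕ) :
    av s (fun z => av s (fun z' => ((z' : ℝ) - z)) (2 * t + 1)) (2 * t) = 2 ^ s := by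
  have h1 : ∀ z : ℕ, av s (fun z' => ((z' : ℝ) - z)) (2 * t + 1)
      = av s (fun z' => (z' : ℝ)) (2 * t + 1) - z := by
    intro z
    rw [av_sub s (fun z' => (z' : ℝ)) (fun _ => (z : ℝ)), av_const]
  simp only [h1]
  rw [av_sub s (fun _ => av s (fun z' => (z' : ℝ)) (2 * t + 1)) (fun z => (z : ℝ)), av_const,
    av_idR, av_idR]
  push_cast
  ring

/-- step (3) for one pair of neighbouring blocks -/
theorem pair_ineq (L s l t : ℕ) (hl : l < L) (h : ℕ → ℕ → ℕ → ℂ)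
    (hh : ∀ x y z, ‖h x y z‖ = 1) (ρ η : ℝ) (hρ0 : 0 ≤ ρ) (hρ1 : ρ ≤ 1) (hη : 0 < η)
    (g : ℕ → ℕ → ℕ → ℝ) (hg0 : ∀ a tx ty, 0 ≤ g a tx ty) (hg1 : ∀ a tx ty, g a tx ty ≤ 1)
    (hH : ∀ z z', 2 * t * 2 ^ s ≤ z → z < (2 * t + 1) * 2 ^ s → (2 * t + 1) * 2 ^ s ≤ z' →
      z' < (2 * t + 1 + 1) * 2 ^ s → ∀ a, a ≤ l → ∀ tx ty, g a tx ty ≠ 0 →
      ∃ u v : ℕ → ℂ, (∀ x, ‖u x‖ = 1) ∧ (∀ y, ‖v y‖ = 1) ∧
      ∀ x, tx * 2 ^ (L - 1 - a + 1) ≤ x → x < (tx + 1) * 2 ^ (L - 1 - a + 1) →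
      ∀ y, ty * 2 ^ (L - 1 - (l - a) + 1) ≤ y → y < (ty + 1) * 2 ^ (L - 1 - (l - a) + 1) →
      h x y z * (starRingEnd ℂ) (h x y z') = u x * v y * exp (I * ((
        ρ * (((z' : ℝ) - z) / 2 ^ (s + 1))
        / (2 ^ (L - 1 - a + 1) * 2 ^ (L - 1 - (l - a) + 1)) *
        ((x : ℝ) - (tx * 2 ^ (L - 1 - a + 1) : ℕ)) *
        ((y : ℝ) - (ty * 2 ^ (L - 1 - (l - a) + 1) : ℕ)) : ℝ) : ℂ))) :
    ρ / 32 * shp l g - (l + 1) * (4 * ρ ^ 2 + ρ * η)
      - ((l + 1) * (ρ / (4 * η)) + 2) * av2 L (fun x y =>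
          2 - (‖av s (h x y) (2 * t)‖ ^ 2 + ‖av s (h x y) (2 * t + 1)‖ ^ 2)
            + 4 * ‖hr s (h x y) t‖ ^ 2)
      ≤ shp l (fun a tx ty =>
          g a tx ty * (qh (L - 1 - a) tx (L - 1 - (l - a)) ty (vv s t h)).im) := by
  have hp : (0 : ℝ) < 2 ^ s := by positivity
  -- pointwise in z, z'
  have hpt : ∀ z, 2 * t * 2 ^ s ≤ z → z < (2 * t + 1) * 2 ^ s → ∀ z', (2 * t + 1) * 2 ^ s ≤ z' →
      z' < (2 * t + 1 + 1) * 2 ^ s →
      ρ / (2 * 2 ^ s) / 16 * shp l g * ((z' : ℝ) - z) - ((l + 1) * (4 * ρ ^ 2 + ρ * η)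
        + ((l + 1) * (ρ / (4 * η)) + 2) * av2 L (fun x y =>
            ‖h x y z * (starRingEnd ℂ) (h x y z') - 1‖ ^ 2))
      ≤ shp l (fun a tx ty => g a tx ty * (qh (L - 1 - a) tx (L - 1 - (l - a)) ty
          (fun x y => h x y z * (starRingEnd ℂ) (h x y z'))).im) := by
    intro z hz1 hz2 z' hz1' hz2'
    have e1 : (z : ℝ) ≤ z' := by
      have : z ≤ z' := le_trans hz2.le hz1'
      exact_mod_cast this
    have e2 : (z' : ℝ) - z ≤ 2 ^ (s + 1) := by
      have a1 : ((2 * t * 2 ^ s : ℕ) : ℝ) ≤ z := by exact_mod_cast hz1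
      have a2 : (z' : ℝ) ≤ (((2 * t + 1 + 1) * 2 ^ s : ℕ) : ℝ) := by exact_mod_cast hz2'.le
      push_cast at a1 a2
      rw [pow_succ]
      nlinarith
    have e3 : 0 ≤ ((z' : ℝ) - z) / 2 ^ (s + 1) := div_nonneg (by linarith) (by positivity)
    have e4 : ((z' : ℝ) - z) / 2 ^ (s + 1) ≤ 1 := by
      rw [div_le_one (by positivity)]; exact e2
    set W := ρ * (((z' : ℝ) - z) / 2 ^ (s + 1)) with hW
    have hW0 : 0 ≤ W := mul_nonneg hρ0 e3
    have hWρ : W ≤ ρ := by rw [hW]; nlinarith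
    have hW1 : W ≤ 1 := le_trans hWρ hρ1
    have key := shapes_ineq L l hl (fun x y => h x y z * (starRingEnd ℂ) (h x y z')) W η hW0 hW1
      hη g hg0 hg1 (hH z z' hz1 hz2 hz1' hz2')
    refine le_trans ?_ key
    have hM : 0 ≤ av2 L (fun x y => ‖h x y z * (starRingEnd ℂ) (h x y z') - 1‖ ^ 2) :=
      av2_nonneg _ _ fun x y => by positivity
    have b1 : 4 * W ^ 2 + W * η ≤ 4 * ρ ^ 2 + ρ * η := by nlinarith
    have hl0 : (0 : ℝ) ≤ (l : ℝ) + 1 := by positivity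
    have b2 : ((l : ℝ) + 1) * (4 * W ^ 2 + W * η) ≤ (l + 1) * (4 * ρ ^ 2 + ρ * η) :=
      mul_le_mul_of_nonneg_left b1 hl0
    have b3 : W / (4 * η) ≤ ρ / (4 * η) := div_le_div_of_nonneg_right hWρ (by positivity)
    have b4 : ((l : ℝ) + 1) * (W / (4 * η)) + 2 ≤ (l + 1) * (ρ / (4 * η)) + 2 := by
      have := mul_le_mul_of_nonneg_left b3 hl0
      linarith
    have b5 := mul_le_mul_of_nonneg_right b4 hM
    have b6 : ρ / (2 * 2 ^ s) / 16 * shp l g * ((z' : ℝ) - z) = W / 16 * shp l g := by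
      rw [hW, pow_succ]
      field_simp
    rw [b6]
    linarith
  -- average
  have havg := av_mono s (2 * t) (fun z hz1 hz2 => av_mono s (2 * t + 1)
    (fun z' hz1' hz2' => hpt z hz1 hz2 z' hz1' hz2'))
  -- right-hand side
  have hR : av s (fun z => av s (fun z' => shp l (fun a tx ty => g a tx ty *
      (qh (L - 1 - a) tx (L - 1 - (l - a)) ty
          (fun x y => h x y z * (starRingEnd ℂ) (h x y z'))).im)) (2 * t + 1)) (2 * t)
      = shp l (fun a tx ty =>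
          g a tx ty * (qh (L - 1 - a) tx (L - 1 - (l - a)) ty (vv s t h)).im) := by
    have r1 : ∀ z, av s (fun z' => shp l (fun a tx ty => g a tx ty *
      (qh (L - 1 - a) tx (L - 1 - (l - a)) ty
          (fun x y => h x y z * (starRingEnd ℂ) (h x y z'))).im)) (2 * t + 1)
        = shp l (fun a tx ty => av s (fun z' => g a tx ty *
      (qh (L - 1 - a) tx (L - 1 - (l - a)) ty
          (fun x y => h x y z * (starRingEnd ℂ) (h x y z'))).im) (2 * t + 1)) := fun z =>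
      (shp_av l s (2 * t + 1) _).symm
    simp only [r1]
    rw [← shp_av]
    congr 1
    ext a tx ty
    have r2 : ∀ z, av s (fun z' => g a tx ty * (qh (L - 1 - a) tx (L - 1 - (l - a)) ty
          (fun x y => h x y z * (starRingEnd ℂ) (h x y z'))).im) (2 * t + 1)
        = g a tx ty * av s (fun z' => (qh (L - 1 - a) tx (L - 1 - (l - a)) ty
          (fun x y => h x y z * (starRingEnd ℂ) (h x y z'))).im) (2 * t + 1) := fun z =>
      av_mul_left _ _ _ _
    simp only [r2]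
    rw [av_mul_left]
    congr 1
    have r3 : vv s t h = fun x y => av s (fun z => av s (fun z' => h x y z *
        (starRingEnd ℂ) (h x y z')) (2 * t + 1)) (2 * t) := by
      ext x y
      exact vv_eq s t h x y
    rw [r3, qh_av, im_av]
    congr 1
    ext z
    rw [qh_av, im_av]
  rw [hR] at havg
  refine le_trans (le_of_eq ?_) havg
  -- left-hand side
  have l1 : ∀ z : ℕ, av s (fun z' : ℕ => ρ / (2 * 2 ^ s) / 16 * shp l g * ((z' : ℝ) - z)
        - ((l + 1) * (4 * ρ ^ 2 + ρ * η)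
        + ((l + 1) * (ρ / (4 * η)) + 2) * av2 L (fun x y =>
            ‖h x y z * (starRingEnd ℂ) (h x y z') - 1‖ ^ 2))) (2 * t + 1)
      = ρ / (2 * 2 ^ s) / 16 * shp l g * av s (fun z' : ℕ => ((z' : ℝ) - z)) (2 * t + 1)
        - ((l + 1) * (4 * ρ ^ 2 + ρ * η)
        + ((l + 1) * (ρ / (4 * η)) + 2) * av s (fun z' => av2 L (fun x y =>
            ‖h x y z * (starRingEnd ℂ) (h x y z') - 1‖ ^ 2)) (2 * t + 1)) := by
    intro z
    rw [av_sub, av_mul_left, av_add, av_const, av_mul_left]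
  simp only [l1]
  rw [av_sub, av_mul_left, av_add, av_const, av_mul_left, av_av_diff]
  have l2 : av s (fun z => av s (fun z' => av2 L (fun x y =>
      ‖h x y z * (starRingEnd ℂ) (h x y z') - 1‖ ^ 2)) (2 * t + 1)) (2 * t)
      = av2 L (fun x y =>
          2 - (‖av s (h x y) (2 * t)‖ ^ 2 + ‖av s (h x y) (2 * t + 1)‖ ^ 2)
            + 4 * ‖hr s (h x y) t‖ ^ 2) := by
    unfold av2
    have c1 : ∀ z, av s (fun z' => av L (fun y => av L (fun x =>
        ‖h x y z * (starRingEnd ℂ) (h x y z') - 1‖ ^ 2) 0) 0) (2 * t + 1)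
        = av L (fun y => av L (fun x => av s (fun z' =>
        ‖h x y z * (starRingEnd ℂ) (h x y z') - 1‖ ^ 2) (2 * t + 1)) 0) 0 := by
      intro z
      rw [av_comm s L]
      congr 1
      ext y
      rw [av_comm s L]
    simp only [c1]
    rw [av_comm s L]
    congr 1
    ext y
    rw [av_comm s L]
    congr 1
    ext x
    exact moment_two s t (h x y) (hh x y)
  rw [l2]
  field_simp
  ring

end Pool.Agent.Helper93.LD
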