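import Pool.Agent.Helper93.LD.P3

/-!
# The lower bound in measure for weighted discrepancy functions in three variables
-/

set_option autoImplicit false

namespace Pool.Agent.Helper93.LD

open Finset Complex

section av3

variable {E : Type*} [AddCommGroup E] [Module ℝ E]

/-- average over the cube in three variables -/
noncomputable def av3 (L : ℕ) (F : ℕ → ℕ → ℕ → E) : E :=
  av L (fun x => av L (fun y => av L (fun z => F x y z) 0) 0) 0

theorem av3_add (L : ℕ) (F G : ℕ → ℕ → ℕ → E) :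
    av3 L (fun x y z => F x y z + G x y z) = av3 L F + av3 L G := by
  unfold av3
  rw [← av_add]
  congr 1
  ext x
  rw [← av_add]
  congr 1
  ext y
  rw [av_add]

theorem av3_sub (L : ℕ) (F G : ℕ → ℕ → ℕ → E) :
    av3 L (fun x y z => F x y z - G x y z) = av3 L F - av3 L G := by
  unfold av3
  rw [← av_sub]
  congr 1
  ext x
  rw [← av_sub]
  congr 1
  ext y
  rw [av_sub]

theorem av3_const (L : ℕ) (c : E) : av3 L (fun _ _ _ => c) = c := by
  unfold av3
  rw [av_const, av_const, av_const]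

theorem av3_av (L s t : ℕ) (F : ℕ → ℕ → ℕ → ℕ → E) :
    av3 L (fun x y z => av s (fun w => F w x y z) t) = av s (fun w => av3 L (F w)) t := by
  unfold av3
  rw [av_comm s L]
  congr 1
  ext x
  rw [av_comm s L]
  congr 1
  ext y
  rw [av_comm s L]

end av3

theorem av3_mono (L : ℕ) {F G : ℕ → ℕ → ℕ → ℝ} (h : ∀ x y z, F x y z ≤ G x y z) :
    av3 L F ≤ av3 L G := by
  unfold av3
  exact av_mono' _ _ fun x => av_mono' _ _ fun y => av_mono' _ _ fun z => h x y z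

theorem av3_nonneg (L : ℕ) {F : ℕ → ℕ → ℕ → ℝ} (h : ∀ x y z, 0 ≤ F x y z) : 0 ≤ av3 L F := by
  unfold av3
  exact av_nonneg _ _ fun x => av_nonneg _ _ fun y => av_nonneg _ _ fun z => h x y z

theorem av3_mul (L : ℕ) (c : ℝ) (F : ℕ → ℕ → ℕ → ℝ) :
    av3 L (fun x y z => c * F x y z) = c * av3 L F := by
  unfold av3
  rw [← av_mul_left]
  congr 1
  ext x
  rw [← av_mul_left]
  congr 1
  ext y
  rw [av_mul_left]

theorem norm_av3_le (L : ℕ) (F : ℕ → ℕ → ℕ → ℂ) :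
    ‖av3 L F‖ ≤ av3 L (fun x y z => ‖F x y z‖) := by
  unfold av3
  refine le_trans (norm_av_le _ _ _) (av_mono' _ _ fun x => ?_)
  refine le_trans (norm_av_le _ _ _) (av_mono' _ _ fun y => ?_)
  exact norm_av_le _ _ _

theorem norm_av_sq_le (s t : ℕ) (φ : ℕ → ℂ) : ‖av s φ t‖ ^ 2 ≤ av s (fun i => ‖φ i‖ ^ 2) t := by
  induction s generalizing t with
  | zero => exact le_refl _
  | succ s ih =>
    have h1 := parallelogram s φ t
    have h2 : 0 ≤ ‖hr s φ t‖ ^ 2 := by positivity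
    have h3 := ih (2 * t)
    have h4 := ih (2 * t + 1)
    rw [av_succ s (fun i => ‖φ i‖ ^ 2), smul_eq_mul]
    linarith

theorem norm_av3_sq_le (L : ℕ) (h : ℕ → ℕ → ℕ → ℂ) : ‖av3 L h‖ ^ 2 ≤ EN L L h := by
  unfold EN av3
  rw [av2_comm]
  have e : L - L = 0 := Nat.sub_self L
  rw [e]
  refine le_trans (norm_av_sq_le _ _ _) (av_mono' _ _ fun x => ?_)
  refine le_trans (norm_av_sq_le _ _ _) (av_mono' _ _ fun y => ?_)
  exact le_refl _

/-- the bound in measure, abstract form -/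
theorem meas_of_energy (L : ℕ) (Θ : ℕ → ℕ → ℕ → ℝ) (ε : ℝ) (hε0 : 0 ≤ ε) (hε1 : ε ≤ 1)
    (h : EN L L (fun x y z => exp (I * ((Θ x y z : ℝ) : ℂ))) ≤ 1 - ε) :
    ε / 8 ≤ av3 L (fun x y z => if ε / 4 ≤ |Θ x y z| then (1 : ℝ) else 0) := by
  set H : ℕ → ℕ → ℕ → ℂ := fun x y z => exp (I * ((Θ x y z : ℝ) : ℂ)) with hH
  have h1 : ‖av3 L H‖ ^ 2 ≤ (1 - ε / 2) ^ 2 := by
    refine le_trans (le_trans (norm_av3_sq_le L H) h) ?_
    nlinarith [sq_nonneg ε]
  have h2 : ‖av3 L H‖ ≤ 1 - ε / 2 := by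
    refine abs_le_of_sq_le_sq' h1 (by linarith) |>.2
  have h3 : ε / 2 ≤ ‖av3 L (fun x y z => 1 - H x y z)‖ := by
    rw [av3_sub L (fun _ _ _ => (1 : ℂ)), av3_const]
    have := norm_sub_norm_le (1 : ℂ) (av3 L H)
    rw [norm_one] at this
    linarith
  have h4 := norm_av3_le L (fun x y z => 1 - H x y z)
  have h5 : av3 L (fun x y z => ‖1 - H x y z‖) ≤ av3 L (fun x y z => ε / 4
      + 2 * (if ε / 4 ≤ |Θ x y z| then (1 : ℝ) else 0)) := by
    refine av3_mono L fun x y z => ?_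
    split_ifs with hc
    · have : ‖1 - H x y z‖ ≤ ‖(1 : ℂ)‖ + ‖H x y z‖ := norm_sub_le _ _
      rw [norm_one, hH] at this
      simp only at this
      rw [norm_exp_I] at this
      linarith
    · have := exp_sub_one_bound (Θ x y z)
      rw [norm_sub_rev] at this
      rw [not_le] at hc
      simp only [hH]
      linarith
  rw [av3_add L (fun _ _ _ => ε / 4), av3_const, av3_mul] at h5
  linarith

/-- weighted discrepancy functions in three variables are large in measure -/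
theorem P3_meas {ι : Type*} (P : Finset ι) (w : ι → ℝ) (qx qy qz : ι → ℕ)
    (κ u1 u2 u3 : ℝ) (hκ : 0 < κ) (n L : ℕ) (hn : 1000 ≤ n) (hL : n + 1 ≤ L)
    (hP : 4 * P.card ≤ 2 ^ n) :
    1 / 2 ^ 33 ≤ av3 L (fun x y z => if κ * n / 2 ^ n / 2 ^ 32
      ≤ |DD P w qx qy qz (κ / 2 ^ (3 * L)) u1 u2 u3 x y z| then (1 : ℝ) else 0) := by
  obtain ⟨r, rfl⟩ : ∃ r, L = r + n + 1 := ⟨L - (n + 1), by omega⟩
  have h1 := P3_energy P w qx qy qz κ u1 u2 u3 hκ n r hn hP
  have h2 := meas_of_energy (r + n + 1) (fun x y z => 2 ^ n / (κ * n) *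
      DD P w qx qy qz (κ / 2 ^ (3 * (r + n + 1))) u1 u2 u3 x y z) (1 / 2 ^ 30) (by positivity)
      (by norm_num) h1
  have h3 : (1 : ℝ) / 2 ^ 30 / 8 = 1 / 2 ^ 33 := by norm_num
  rw [h3] at h2
  refine le_trans h2 (av3_mono _ fun x y z => ?_)
  have hn0 : (0 : ℝ) < n := by
    have : 0 < n := by omega
    exact_mod_cast this
  have hlam : (0 : ℝ) < 2 ^ n / (κ * n) := by positivity
  have h4 : (1 : ℝ) / 2 ^ 30 / 4
      ≤ |2 ^ n / (κ * n) * DD P w qx qy qz (κ / 2 ^ (3 * (r + n + 1))) u1 u2 u3 x y z|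
      ↔ κ * n / 2 ^ n / 2 ^ 32
      ≤ |DD P w qx qy qz (κ / 2 ^ (3 * (r + n + 1))) u1 u2 u3 x y z| := by
    rw [abs_mul, abs_of_pos hlam]
    have e1 : κ * n / 2 ^ n / 2 ^ 32 = (1 / 2 ^ 30 / 4) / (2 ^ n / (κ * n)) := by
      field_simp
      norm_num
    rw [e1, div_le_iff₀' hlam]
  simp only [h4]
  exact le_refl _

end Pool.Agent.Helper93.LD
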