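import Pool.Agent.Helper93.LD.Good

/-!
# Weighted discrepancy functions in three variables are large
-/

set_option autoImplicit false

namespace Pool.Agent.Helper93.LD

open Finset Complex

theorem numeric_level (X ρ ε H : ℝ) (hρ0 : 0 < ρ) (hρ1 : ρ ≤ 1 / 1000) (hX : 1 / 2 ≤ X * ρ)
    (hε : ε ≤ 1 / 10 ^ 9)
    (h : 2 * (ρ / 60) * (ρ / 32 * (3 / 4 * X) - X * (4 * ρ ^ 2 + ρ * (1 / 1000))
      - (X * (ρ / (4 * (1 / 1000))) + 2) * (4 * ε)) - (ρ / 60) ^ 2 * X ≤ 4 * H) :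
    X * ρ ^ 2 / 14400 ≤ H := by
  have hXρ : 0 ≤ X * ρ := by linarith
  have e1 : (X * (ρ / (4 * (1 / 1000))) + 2) * (4 * ε) = 1000 * (X * ρ) * ε + 8 * ε := by ring
  have e2 : 1000 * (X * ρ) * ε + 8 * ε ≤ (X * ρ) * (1 / 10 ^ 5) := by
    have f1 : 1000 * (X * ρ) * ε ≤ 1000 * (X * ρ) * (1 / 10 ^ 9) :=
      mul_le_mul_of_nonneg_left hε (by positivity)
    have f2 : 8 * ε ≤ 8 * (1 / 10 ^ 9) := by linarith
    nlinarith
  have e3 : X * (4 * ρ ^ 2 + ρ * (1 / 1000)) ≤ (X * ρ) * (1 / 200) := by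
    have f1 : X * (4 * ρ ^ 2 + ρ * (1 / 1000)) = (X * ρ) * (4 * ρ + 1 / 1000) := by ring
    rw [f1]
    exact mul_le_mul_of_nonneg_left (by linarith) hXρ
  have e4 : (X * ρ) * (3 / 128 - 1 / 200 - 1 / 10 ^ 5)
      ≤ ρ / 32 * (3 / 4 * X) - X * (4 * ρ ^ 2 + ρ * (1 / 1000))
      - (X * (ρ / (4 * (1 / 1000))) + 2) * (4 * ε) := by
    rw [e1]
    nlinarith
  have e5 : 2 * (ρ / 60) * ((X * ρ) * (3 / 128 - 1 / 200 - 1 / 10 ^ 5))
      ≤ 2 * (ρ / 60) * (ρ / 32 * (3 / 4 * X) - X * (4 * ρ ^ 2 + ρ * (1 / 1000))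
      - (X * (ρ / (4 * (1 / 1000))) + 2) * (4 * ε)) :=
    mul_le_mul_of_nonneg_left e4 (by positivity)
  have e6 : 2 * (ρ / 60) * ((X * ρ) * (3 / 128 - 1 / 200 - 1 / 10 ^ 5)) - (ρ / 60) ^ 2 * X
      = X * ρ ^ 2 * ((3 / 128 - 1 / 200 - 1 / 10 ^ 5) / 30 - 1 / 3600) := by ring
  have e7 : 0 ≤ X * ρ ^ 2 := by
    have : X * ρ ^ 2 = (X * ρ) * ρ := by ring
    rw [this]
    exact mul_nonneg hXρ hρ0.le
  have e8 : X * ρ ^ 2 / 3600 ≤ 4 * H := by
    have f1 : X * ρ ^ 2 * (1 / 3600) ≤ X * ρ ^ 2 * ((3 / 128 - 1 / 200 - 1 / 10 ^ 5) / 30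
        - 1 / 3600) := mul_le_mul_of_nonneg_left (by norm_num) e7
    linarith
  linarith

/-- the energy bound -/
theorem P3_energy {ι : Type*} (P : Finset ι) (w : ι → ℝ) (qx qy qz : ι → ℕ)
    (κ u1 u2 u3 : ℝ) (hκ : 0 < κ) (n r : ℕ) (hn : 1000 ≤ n) (hP : 4 * P.card ≤ 2 ^ n) :
    EN (r + n + 1) (r + n + 1) (fun x y z => exp (I * ((2 ^ n / (κ * n) *
      DD P w qx qy qz (κ / 2 ^ (3 * (r + n + 1))) u1 u2 u3 x y z : ℝ) : ℂ)))
      ≤ 1 - 1 / 2 ^ 30 := by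
  set L := r + n + 1 with hL
  set lam : ℝ := 2 ^ n / (κ * n) with hlam
  set h : ℕ → ℕ → ℕ → ℂ := fun x y z => exp (I * ((lam *
      DD P w qx qy qz (κ / 2 ^ (3 * L)) u1 u2 u3 x y z : ℝ) : ℂ)) with hh
  have hunit : ∀ x y z, ‖h x y z‖ = 1 := fun x y z => norm_exp_I _
  have hn0 : (0 : ℝ) < n := by
    have : 0 < n := by omega
    exact_mod_cast this
  have hn1 : (1000 : ℝ) ≤ n := by exact_mod_cast hn
  set ρ : ℝ := 1 / n with hρ
  have hρ0 : 0 < ρ := by positivity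
  have hρ1 : ρ ≤ 1 / 1000 := by
    rw [hρ]
    exact one_div_le_one_div_of_le (by norm_num) hn1
  have hρlam : ρ * 2 ^ n = lam * κ := by
    rw [hρ, hlam]
    field_simp
  by_contra hcon
  rw [not_le] at hcon
  set ε := 1 - EN L L h with hε
  have hε1 : ε ≤ 1 / 10 ^ 9 := by
    have e1 : (1 : ℝ) / 2 ^ 30 ≤ 1 / 10 ^ 9 := by norm_num
    linarith
  have hsum := EN_sum L h hunit L le_rfl
  have hε0 : 0 ≤ ε := by
    rw [hε, ← hsum]
    exact Finset.sum_nonneg fun s _ => HN_nonneg L s h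
  have hHN : ∀ s, s < L → HN L s h ≤ ε := by
    intro s hs
    rw [hε, ← hsum]
    exact Finset.single_le_sum (f := fun s => HN L s h) (fun s _ => HN_nonneg L s h)
      (Finset.mem_range.2 hs)
  -- the levels
  have hlevel : ∀ l, l ≤ n → n ≤ 2 * l → ((l : ℝ) + 1) * ρ ^ 2 / 14400 ≤ HN L (r + l) h := by
    intro l hl1 hl2
    have hs : r + l < L := by omega
    have hj : L - 1 - (r + l) = n - l := by omega
    have hmass : 3 / 4 * ((l : ℝ) + 1) ≤ av (L - 1 - (r + l))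
        (fun t => shp l (gd P qx qy qz L (r + l) l t)) 0 := by
      rw [hj]
      refine le_trans ?_ (gd_mass P qx qy qz L (r + l) l (n - l))
      have e1 : (1 / 2 : ℝ) ^ l * (1 / 2) ^ (n - l) = (1 / 2) ^ n := by
        rw [← pow_add]; congr 1; omega
      have e2 : (P.card : ℝ) * (1 / 2) ^ n ≤ 1 / 4 := by
        have f1 : (4 : ℝ) * P.card ≤ 2 ^ n := by exact_mod_cast hP
        rw [one_div, inv_pow, mul_inv_le_iff₀ (by positivity)]
        linarith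
      rw [e1]
      have f2 : (0 : ℝ) ≤ (l : ℝ) + 1 := by positivity
      nlinarith
    have hli := level_ineq L (r + l) l (by omega) hs h hunit ρ (1 / 1000) (ρ / 60) hρ0.le
      (by linarith) (by norm_num) (by positivity) (gd P qx qy qz L (r + l) l)
      (fun t a tx ty => gd_nonneg P qx qy qz L (r + l) l t a tx ty)
      (fun t a tx ty => gd_le_one P qx qy qz L (r + l) l t a tx ty)
      (fun t z z' hz1 hz2 hz1' hz2' a ha tx ty hg => good_structure P w qx qy qz κ lam u1 u2 u3 ρ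
        n r l hl1 hρlam t z z' hz1 hz2 hz1' hz2' a ha tx ty hg) hmass
    have hEN : 2 - 2 * EN L (r + l) h + 4 * HN L (r + l) h ≤ 4 * ε := by
      have e1 := EN_step L (r + l) hs h
      have e2 := EN_anti L h (r + l + 1) L (by omega) le_rfl
      have e3 := hHN (r + l) hs
      have e4 : EN L L h = 1 - ε := by rw [hε]; ring
      linarith
    have hX : 1 / 2 ≤ ((l : ℝ) + 1) * ρ := by
      have f1 : (n : ℝ) ≤ 2 * l := by exact_mod_cast hl2
      rw [hρ, mul_one_div, le_div_iff₀ hn0]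
      linarith
    refine numeric_level ((l : ℝ) + 1) ρ ε (HN L (r + l) h) hρ0 hρ1 hX hε1 ?_
    refine le_trans ?_ hli
    have f2 : (0 : ℝ) ≤ ((l : ℝ) + 1) * (ρ / (4 * (1 / 1000))) + 2 := by positivity
    have f3 := mul_le_mul_of_nonneg_left hEN f2
    have f4 : 0 ≤ 2 * (ρ / 60) := by positivity
    nlinarith
  -- summation
  set m := (n + 1) / 2 with hm
  have hL2 : L = (r + m) + (n + 1 - m) := by omega
  have hsplit : ∑ s ∈ range L, HN L s h
      = ∑ s ∈ range (r + m), HN L s h + ∑ i ∈ range (n + 1 - m), HN L (r + m + i) h := by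
    have h0 := Finset.sum_range_add (fun s => HN L s h) (r + m) (n + 1 - m)
    rw [← hL2] at h0
    exact h0
  have h1 : 0 ≤ ∑ s ∈ range (r + m), HN L s h :=
    Finset.sum_nonneg fun s _ => HN_nonneg L s h
  have h2 : ∑ _i ∈ range (n + 1 - m), ((n : ℝ) / 2 * ρ ^ 2 / 14400)
      ≤ ∑ i ∈ range (n + 1 - m), HN L (r + m + i) h := by
    refine Finset.sum_le_sum fun i hi => ?_
    rw [Finset.mem_range] at hi
    have e1 := hlevel (m + i) (by omega) (by omega)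
    rw [← add_assoc] at e1
    refine le_trans ?_ e1
    have e2 : (n : ℝ) / 2 ≤ ((m + i : ℕ) : ℝ) + 1 := by
      have : n ≤ 2 * (m + i) := by omega
      have f1 : (n : ℝ) ≤ 2 * ((m + i : ℕ) : ℝ) := by exact_mod_cast this
      linarith
    have e3 : 0 ≤ ρ ^ 2 := by positivity
    have e4 := mul_le_mul_of_nonneg_right e2 e3
    linarith
  rw [Finset.sum_const, Finset.card_range, nsmul_eq_mul] at h2
  have h3 : (n : ℝ) / 2 ≤ ((n + 1 - m : ℕ) : ℝ) := by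
    have : n ≤ 2 * (n + 1 - m) := by omega
    have f1 : (n : ℝ) ≤ 2 * ((n + 1 - m : ℕ) : ℝ) := by exact_mod_cast this
    linarith
  have h4 : (n : ℝ) / 2 * ((n : ℝ) / 2 * ρ ^ 2 / 14400)
      ≤ ((n + 1 - m : ℕ) : ℝ) * ((n : ℝ) / 2 * ρ ^ 2 / 14400) :=
    mul_le_mul_of_nonneg_right h3 (by positivity)
  have h5 : (n : ℝ) / 2 * ((n : ℝ) / 2 * ρ ^ 2 / 14400) = 1 / 57600 := by
    rw [hρ]
    field_simp
    norm_num
  have h6 : ε = ∑ s ∈ range L, HN L s h := by rw [hε, hsum]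
  have h7 : (1 : ℝ) / 10 ^ 9 < 1 / 57600 := by norm_num
  linarith

end Pool.Agent.Helper93.LD
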