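import Pool.Agent.Helper93.LD.Cell

/-!
# Summation of the cell inequality over all cells of all shapes
-/

set_option autoImplicit false

namespace Pool.Agent.Helper93.LD

open Finset Complex

/-- total average over the square of side `2^L` -/
noncomputable def av2 (L : ℕ) (ψ : ℕ → ℕ → ℝ) : ℝ := av L (fun y => av L (fun x => ψ x y) 0) 0

theorem av2_comm (L : ℕ) (ψ : ℕ → ℕ → ℝ) :
    av2 L ψ = av L (fun x => av L (fun y => ψ x y) 0) 0 := by
  unfold av2
  exact av_comm L L (fun y x => ψ x y) 0 0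

theorem av2_nonneg (L : ℕ) (ψ : ℕ → ℕ → ℝ) (h : ∀ x y, 0 ≤ ψ x y) : 0 ≤ av2 L ψ := by
  unfold av2
  exact av_nonneg _ _ fun y => av_nonneg _ _ fun x => h x y

theorem av_join (L a : ℕ) (ha : a ≤ L) {E : Type*} [AddCommGroup E] [Module ℝ E] (f : ℕ → E) :
    av a (fun t => av (L - a) f t) 0 = av L f 0 := by
  have h := av_add_scale a (L - a) f 0
  have e : a + (L - a) = L := by omega
  rw [e] at h
  exact h.symm

theorem av_join' (L a : ℕ) (ha : a < L) {E : Type*} [AddCommGroup E] [Module ℝ E] (f : ℕ → E) :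
    av a (fun t => av (L - 1 - a + 1) f t) 0 = av L f 0 := by
  have e : L - 1 - a + 1 = L - a := by omega
  rw [e]
  exact av_join L a (by omega) f

theorem cells_total (L l a : ℕ) (ha : a ≤ l) (hl : l < L) (ψ : ℕ → ℕ → ℝ) :
    av a (fun tx => av (l - a) (fun ty => cav (L - 1 - a) tx (L - 1 - (l - a)) ty ψ) 0) 0
      = av2 L ψ := by
  unfold cav av2
  have h1 : ∀ tx, av (l - a) (fun ty => av (L - 1 - (l - a) + 1)
      (fun y => av (L - 1 - a + 1) (fun x => ψ x y) tx) ty) 0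
      = av L (fun y => av (L - 1 - a + 1) (fun x => ψ x y) tx) 0 := fun tx =>
    av_join' L (l - a) (by omega) _
  simp only [h1]
  rw [av_comm a L]
  congr 1
  ext y
  exact av_join' L a (by omega) _

theorem cells_total_x (L l a : ℕ) (ha : a ≤ l) (hl : l < L) (f : ℕ → ℕ → ℝ) :
    av a (fun tx => av (l - a) (fun ty => av (L - 1 - (l - a) + 1) (fun y => f tx y) ty) 0) 0
      = av L (fun y => av a (fun tx => f tx y) 0) 0 := by
  have h1 : ∀ tx, av (l - a) (fun ty => av (L - 1 - (l - a) + 1) (fun y => f tx y) ty) 0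
      = av L (fun y => f tx y) 0 := fun tx => av_join' L (l - a) (by omega) _
  simp only [h1]
  rw [av_comm a L]

theorem cells_total_y (L l a : ℕ) (ha : a ≤ l) (hl : l < L) (f : ℕ → ℕ → ℝ) :
    av a (fun tx => av (l - a) (fun ty => av (L - 1 - a + 1) (fun x => f x ty) tx) 0) 0
      = av L (fun x => av (l - a) (fun ty => f x ty) 0) 0 := by
  have h1 : ∀ tx, av (l - a) (fun ty => av (L - 1 - a + 1) (fun x => f x ty) tx) 0
      = av (L - 1 - a + 1) (fun x => av (l - a) (fun ty => f x ty) 0) tx := fun tx =>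
    av_comm _ _ _ _ _
  simp only [h1]
  exact av_join' L a (by omega) _

theorem bessel_x_total (L l : ℕ) (hl : l < L) (H : ℕ → ℕ → ℂ) :
    ∑ a ∈ range (l + 1), av a (fun tx => av (l - a) (fun ty => av (L - 1 - (l - a) + 1)
        (fun y => ‖hr (L - 1 - a) (fun x => H x y) tx‖ ^ 2) ty) 0) 0
      ≤ av2 L (fun x y => ‖H x y - 1‖ ^ 2) := by
  have h1 : ∀ a ∈ range (l + 1), av a (fun tx => av (l - a) (fun ty => av (L - 1 - (l - a) + 1)
        (fun y => ‖hr (L - 1 - a) (fun x => H x y) tx‖ ^ 2) ty) 0) 0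
      = av L (fun y => av a (fun tx => ‖hr (L - 1 - a) (fun x => H x y - 1) tx‖ ^ 2) 0) 0 := by
    intro a ha
    rw [cells_total_x L l a (by simpa [Nat.lt_succ_iff] using ha) hl
      (fun tx y => ‖hr (L - 1 - a) (fun x => H x y) tx‖ ^ 2)]
    congr 1
    ext y
    congr 1
    ext tx
    rw [hr_sub (L - 1 - a) (fun x => H x y) (fun _ => (1 : ℂ)), hr_const, sub_zero]
  rw [Finset.sum_congr rfl h1, ← av_sum]
  unfold av2
  refine av_mono' _ _ fun y => ?_
  exact bessel_sum L (l + 1) (by omega) (fun x => H x y - 1) 0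

theorem bessel_y_total (L l : ℕ) (hl : l < L) (H : ℕ → ℕ → ℂ) :
    ∑ a ∈ range (l + 1), av a (fun tx => av (l - a) (fun ty => av (L - 1 - a + 1)
        (fun x => ‖hr (L - 1 - (l - a)) (fun y => H x y) ty‖ ^ 2) tx) 0) 0
      ≤ av2 L (fun x y => ‖H x y - 1‖ ^ 2) := by
  have h1 : ∀ a ∈ range (l + 1), av a (fun tx => av (l - a) (fun ty => av (L - 1 - a + 1)
        (fun x => ‖hr (L - 1 - (l - a)) (fun y => H x y) ty‖ ^ 2) tx) 0) 0
      = av L (fun x => av (l - a)
          (fun ty => ‖hr (L - 1 - (l - a)) (fun y => H x y - 1) ty‖ ^ 2) 0) 0 := by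
    intro a ha
    rw [cells_total_y L l a (by simpa [Nat.lt_succ_iff] using ha) hl
      (fun x ty => ‖hr (L - 1 - (l - a)) (fun y => H x y) ty‖ ^ 2)]
    congr 1
    ext x
    congr 1
    ext ty
    rw [hr_sub (L - 1 - (l - a)) (fun y => H x y) (fun _ => (1 : ℂ)), hr_const, sub_zero]
  rw [Finset.sum_congr rfl h1]
  have h2 := Finset.sum_range_reflect (fun b => av L (fun x => av b
          (fun ty => ‖hr (L - 1 - b) (fun y => H x y - 1) ty‖ ^ 2) 0) 0) (l + 1)
  simp only [Nat.add_sub_cancel] at h2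
  rw [h2, ← av_sum, av2_comm]
  refine av_mono' _ _ fun x => ?_
  exact bessel_sum L (l + 1) (by omega) (fun y => H x y - 1) 0

/-- the sum of a function of the shape and the cell over all cells of all shapes `(a, l - a)`
(each shape normalised to total mass one) -/
noncomputable def shp (l : ℕ) (f : ℕ → ℕ → ℕ → ℝ) : ℝ :=
  ∑ a ∈ range (l + 1), av a (fun tx => av (l - a) (fun ty => f a tx ty) 0) 0

theorem shp_mono (l : ℕ) {f g : ℕ → ℕ → ℕ → ℝ} (h : ∀ a, a ≤ l → ∀ tx ty, f a tx ty ≤ g a tx ty) :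
    shp l f ≤ shp l g := by
  unfold shp
  refine Finset.sum_le_sum fun a ha => ?_
  have ha' : a ≤ l := by simpa [Nat.lt_succ_iff] using ha
  exact av_mono' _ _ fun tx => av_mono' _ _ fun ty => h a ha' tx ty

theorem shp_add (l : ℕ) (f g : ℕ → ℕ → ℕ → ℝ) :
    shp l (fun a tx ty => f a tx ty + g a tx ty) = shp l f + shp l g := by
  unfold shp
  rw [← Finset.sum_add_distrib]
  refine Finset.sum_congr rfl fun a _ => ?_
  rw [← av_add]
  congr 1
  ext tx
  rw [av_add]

theorem shp_sub (l : ℕ) (f g : ℕ → ℕ → ℕ → ℝ) :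
    shp l (fun a tx ty => f a tx ty - g a tx ty) = shp l f - shp l g := by
  unfold shp
  rw [← Finset.sum_sub_distrib]
  refine Finset.sum_congr rfl fun a _ => ?_
  rw [← av_sub]
  congr 1
  ext tx
  rw [av_sub]

theorem shp_mul (l : ℕ) (c : ℝ) (f : ℕ → ℕ → ℕ → ℝ) :
    shp l (fun a tx ty => c * f a tx ty) = c * shp l f := by
  unfold shp
  rw [Finset.mul_sum]
  refine Finset.sum_congr rfl fun a _ => ?_
  rw [← av_mul_left]
  congr 1
  ext tx
  rw [av_mul_left]

theorem shp_const (l : ℕ) (c : ℝ) : shp l (fun _ _ _ => c) = (l + 1) * c := by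
  unfold shp
  simp only [av_const, Finset.sum_const, Finset.card_range, nsmul_eq_mul]
  push_cast
  ring

theorem shp_av (l s t : ℕ) (f : ℕ → ℕ → ℕ → ℕ → ℝ) :
    shp l (fun a tx ty => av s (fun z => f z a tx ty) t) = av s (fun z => shp l (f z)) t := by
  unfold shp
  rw [av_sum]
  refine Finset.sum_congr rfl fun a _ => ?_
  rw [av_comm s a]
  congr 1
  ext tx
  rw [av_comm s (l - a)]

/-- summation of the cell inequality, for one unimodular function `H` -/
theorem shapes_ineq (L l : ℕ) (hl : l < L) (H : ℕ → ℕ → ℂ) (W η : ℝ) (hW0 : 0 ≤ W) (hW1 : W ≤ 1)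
    (hη : 0 < η) (g : ℕ → ℕ → ℕ → ℝ) (hg0 : ∀ a tx ty, 0 ≤ g a tx ty)
    (hg1 : ∀ a tx ty, g a tx ty ≤ 1)
    (hH : ∀ a, a ≤ l → ∀ tx ty, g a tx ty ≠ 0 → ∃ u v : ℕ → ℂ, (∀ x, ‖u x‖ = 1) ∧
      (∀ y, ‖v y‖ = 1) ∧
      ∀ x, tx * 2 ^ (L - 1 - a + 1) ≤ x → x < (tx + 1) * 2 ^ (L - 1 - a + 1) →
      ∀ y, ty * 2 ^ (L - 1 - (l - a) + 1) ≤ y → y < (ty + 1) * 2 ^ (L - 1 - (l - a) + 1) →
      H x y = u x * v y * exp (I * ((W / (2 ^ (L - 1 - a + 1) * 2 ^ (L - 1 - (l - a) + 1)) *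
        ((x : ℝ) - (tx * 2 ^ (L - 1 - a + 1) : ℕ)) *
        ((y : ℝ) - (ty * 2 ^ (L - 1 - (l - a) + 1) : ℕ)) : ℝ) : ℂ))) :
    W / 16 * shp l g - (l + 1) * (4 * W ^ 2 + W * η)
      - ((l + 1) * (W / (4 * η)) + 2) * av2 L (fun x y => ‖H x y - 1‖ ^ 2)
      ≤ shp l (fun a tx ty => g a tx ty * (qh (L - 1 - a) tx (L - 1 - (l - a)) ty H).im) := by
  -- per cell
  have hcell : ∀ a, a ≤ l → ∀ tx ty,
      (W / 16 * g a tx ty - (4 * W ^ 2 + W * η)
        - (W / (4 * η)) * cav (L - 1 - a) tx (L - 1 - (l - a)) ty (fun x y => ‖H x y - 1‖ ^ 2)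
        - av (L - 1 - (l - a) + 1) (fun y => ‖hr (L - 1 - a) (fun x => H x y) tx‖ ^ 2) ty)
        - av (L - 1 - a + 1) (fun x => ‖hr (L - 1 - (l - a)) (fun y => H x y) ty‖ ^ 2) tx
      ≤ g a tx ty * (qh (L - 1 - a) tx (L - 1 - (l - a)) ty H).im := by
    intro a ha tx ty
    set sx := L - 1 - a with hsx
    set sy := L - 1 - (l - a) with hsy
    have n1 : 0 ≤ cav sx tx sy ty (fun x y => ‖H x y - 1‖ ^ 2) := by
      unfold cav
      exact av_nonneg _ _ fun y => av_nonneg _ _ fun x => by positivity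
    have n2 : 0 ≤ av (sy + 1) (fun y => ‖hr sx (fun x => H x y) tx‖ ^ 2) ty :=
      av_nonneg _ _ fun y => by positivity
    have n3 : 0 ≤ av (sx + 1) (fun x => ‖hr sy (fun y => H x y) ty‖ ^ 2) tx :=
      av_nonneg _ _ fun y => by positivity
    have n4 : 0 ≤ W / (4 * η) := by positivity
    have n5 : 0 ≤ (W / (4 * η)) * cav sx tx sy ty (fun x y => ‖H x y - 1‖ ^ 2) :=
      mul_nonneg n4 n1
    by_cases hg : g a tx ty = 0
    · rw [hg, zero_mul, mul_zero]
      have : 0 ≤ 4 * W ^ 2 + W * η := by positivity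
      linarith
    · obtain ⟨u, v, hu, hv, hH'⟩ := hH a ha tx ty hg
      have hA : (0 : ℝ) < 2 ^ (sx + 1) * 2 ^ (sy + 1) := by positivity
      have hω : W / (2 ^ (sx + 1) * 2 ^ (sy + 1)) * (2 ^ (sx + 1) * 2 ^ (sy + 1)) = W :=
        div_mul_cancel₀ _ hA.ne'
      have key := cell_ineq sx tx sy ty H u v (W / (2 ^ (sx + 1) * 2 ^ (sy + 1)))
        (div_nonneg hW0 hA.le) (by rw [hω]; exact hW1) hu hv hH'
      rw [hω] at key
      have m1 : cav sx tx sy ty (fun x y => ‖H x y - 1‖)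
          ≤ η + (1 / (4 * η)) * cav sx tx sy ty (fun x y => ‖H x y - 1‖ ^ 2) := by
        have e1 : cav sx tx sy ty (fun x y => η + (1 / (4 * η)) * ‖H x y - 1‖ ^ 2)
            = η + (1 / (4 * η)) * cav sx tx sy ty (fun x y => ‖H x y - 1‖ ^ 2) := by
          rw [cav_add sx tx sy ty (fun _ _ => η) (fun x y => (1 / (4 * η)) * ‖H x y - 1‖ ^ 2),
            cav_const, cav_mul]
        rw [← e1]
        refine cav_mono _ _ _ _ fun x _ _ y _ _ => ?_
        have hx : 0 ≤ (‖H x y - 1‖ - 2 * η) ^ 2 := sq_nonneg _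
        have e2 : η + (1 / (4 * η)) * ‖H x y - 1‖ ^ 2 - ‖H x y - 1‖
            = (‖H x y - 1‖ - 2 * η) ^ 2 / (4 * η) := by
          field_simp
          ring
        have e3 : 0 ≤ (‖H x y - 1‖ - 2 * η) ^ 2 / (4 * η) := by positivity
        linarith
      have m2 : W * cav sx tx sy ty (fun x y => ‖H x y - 1‖)
          ≤ W * η + (W / (4 * η)) * cav sx tx sy ty (fun x y => ‖H x y - 1‖ ^ 2) := by
        have := mul_le_mul_of_nonneg_left m1 hW0
        have e4 : W * (η + (1 / (4 * η)) * cav sx tx sy ty (fun x y => ‖H x y - 1‖ ^ 2))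
            = W * η + (W / (4 * η)) * cav sx tx sy ty (fun x y => ‖H x y - 1‖ ^ 2) := by ring
        rwa [e4] at this
      -- the inequality for g = 1
      set Q := (qh sx tx sy ty H).im with hQ
      set P := (4 * W ^ 2 + W * η)
        + (W / (4 * η)) * cav sx tx sy ty (fun x y => ‖H x y - 1‖ ^ 2)
        + av (sy + 1) (fun y => ‖hr sx (fun x => H x y) tx‖ ^ 2) ty
        + av (sx + 1) (fun x => ‖hr sy (fun y => H x y) ty‖ ^ 2) tx with hP
      have hPnn : 0 ≤ P := by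
        have : 0 ≤ 4 * W ^ 2 + W * η := by positivity
        linarith
      have key2 : W / 16 - P ≤ Q := by linarith
      have key3 : g a tx ty * (W / 16 - P) ≤ g a tx ty * Q :=
        mul_le_mul_of_nonneg_left key2 (hg0 a tx ty)
      have key4 : g a tx ty * P ≤ P := by
        have := mul_le_mul_of_nonneg_right (hg1 a tx ty) hPnn
        linarith
      have key5 : g a tx ty * (W / 16 - P) = W / 16 * g a tx ty - g a tx ty * P := by ring
      linarith
  have hsum := shp_mono l hcell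
  refine le_trans ?_ hsum
  rw [shp_sub, shp_sub, shp_sub, shp_sub, shp_mul, shp_mul, shp_const]
  have t1 : shp l (fun a tx ty => cav (L - 1 - a) tx (L - 1 - (l - a)) ty
      (fun x y => ‖H x y - 1‖ ^ 2)) = (l + 1) * av2 L (fun x y => ‖H x y - 1‖ ^ 2) := by
    unfold shp
    rw [Finset.sum_congr rfl (fun a ha => cells_total L l a
      (by simpa [Nat.lt_succ_iff] using ha) hl _), Finset.sum_const, Finset.card_range,
      nsmul_eq_mul]
    push_cast
    ring
  have t2 := bessel_x_total L l hl H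
  have t3 := bessel_y_total L l hl H
  rw [t1]
  unfold shp
  have t4 : W / (4 * η) * ((l + 1) * av2 L (fun x y => ‖H x y - 1‖ ^ 2))
      = (l + 1) * (W / (4 * η)) * av2 L (fun x y => ‖H x y - 1‖ ^ 2) := by ring
  rw [t4]
  linarith

end Pool.Agent.Helper93.LD
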