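import Mathlib
import Pool.Agent.Helper93.LD.Final

/-! The `L^1` norm of the discrepancy function: the conjectured bound in dimensions three and
four, and the bound `(log N)^(3/2)` in all higher dimensions. -/

namespace Pool.Agent.Helper93.LD.SharpThreeFour

/-- For every `d ≥ 3` there is `c > 0` such that every set of `N ≥ 2` points in `[0,1]^d` has
`L^1` norm of its discrepancy function at least `c (log N)^(min ((d-1)/2, 3/2))`. -/
theorem result :
    ∀ d : ℕ, 3 ≤ d → ∃ c : ℝ, 0 < c ∧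
      ∀ N : ℕ, 2 ≤ N → ∀ P : Finset (Fin d → ℝ), P.card = N →
        (∀ p ∈ P, p ∈ Set.Icc (0 : Fin d → ℝ) 1) →
        c * (Real.log (N : ℝ)) ^ (min (((d : ℝ) - 1) / 2) (3 / 2)) ≤
          ∫ x in Set.Icc (0 : Fin d → ℝ) 1,
            abs ((((P : Set (Fin d → ℝ)) ∩ Set.pi Set.univ (fun i => Set.Iio (x i))).ncard : ℝ)
              - (N : ℝ) * ∏ i, x i) := by
  intro d hd
  obtain ⟨c, hc, h⟩ := Pool.Agent.Helper93.LD.main_lower d hd
  exact ⟨c, hc, fun N hN P hP _ => h N hN P hP⟩

end Pool.Agent.Helper93.LD.SharpThreeFour
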